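import Pool.Agent.Helper84.FS.Edge

/-!
# Flag 2-spheres: contraction of an edge in no induced 4-cycle
-/

open Finset

namespace Pool.Agent.Helper84.FS

variable {X : Type}

/-- The graph with the vertex `w` contracted to `v` (and `w` isolated). -/
def ctr (H : SimpleGraph X) (v w : X) : SimpleGraph X where
  Adj a b := a ≠ b ∧ a ≠ w ∧ b ≠ w ∧ (H.Adj a b ∨ (a = v ∧ H.Adj w b) ∨ (b = v ∧ H.Adj w a))
  symm := ⟨by
    rintro a b ⟨h1, h2, h3, h4⟩
    refine ⟨h1.symm, h3, h2, ?_⟩
    rcases h4 with h4 | h4 | h4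
    · exact Or.inl h4.symm
    · exact Or.inr (Or.inr h4)
    · exact Or.inr (Or.inl h4)⟩
  loopless := ⟨fun a h => h.1 rfl⟩

open scoped Classical in
/-- The map that sends `w` to `v`. -/
noncomputable def ph (v w x : X) : X := if x = w then v else x

theorem ph_w (v w : X) : ph v w w = v := by simp [ph]

theorem ph_ne {v w x : X} (h : x ≠ w) : ph v w x = x := by simp [ph, h]

theorem ph_ne_w {v w : X} (hvw : v ≠ w) (x : X) : ph v w x ≠ w := by
  by_cases h : x = w
  · rw [h, ph_w]
    exact hvw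
  · rw [ph_ne h]
    exact h

theorem ctr_away {H : SimpleGraph X} {v w a b : X} (ha : a ≠ v) (ha' : a ≠ w) (hb : b ≠ v)
    (hb' : b ≠ w) : (ctr H v w).Adj a b ↔ H.Adj a b := by
  constructor
  · rintro ⟨-, -, -, h1 | h1 | h1⟩
    · exact h1
    · exact absurd h1.1 ha
    · exact absurd h1.1 hb
  · intro h1
    exact ⟨h1.ne, ha', hb', Or.inl h1⟩

theorem ctr_v {H : SimpleGraph X} {v w b : X} (hvw : v ≠ w) (hb : b ≠ v) (hb' : b ≠ w) :
    (ctr H v w).Adj v b ↔ H.Adj v b ∨ H.Adj w b := by
  constructor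
  · rintro ⟨-, -, -, h1 | h1 | h1⟩
    · exact Or.inl h1
    · exact Or.inr h1.2
    · exact absurd h1.1 hb
  · rintro (h1 | h1)
    · exact ⟨hb.symm, hvw, hb', Or.inl h1⟩
    · exact ⟨hb.symm, hvw, hb', Or.inr (Or.inl ⟨rfl, h1⟩)⟩

/-- The other common neighbour. -/
theorem Surf.other {H : SimpleGraph X} (h : Surf H) {a b t : X} (hab : H.Adj a b)
    (h1 : H.Adj a t) (h2 : H.Adj b t) : ∃ s, t ≠ s ∧ ¬ H.Adj t s ∧
      ∀ x, (H.Adj a x ∧ H.Adj b x) ↔ (x = t ∨ x = s) := by
  obtain ⟨p, q, hpq, hn, h3⟩ := h.two a b hab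
  rcases (h3 t).1 ⟨h1, h2⟩ with h4 | h4
  · rw [h4]
    exact ⟨q, hpq, hn, h3⟩
  · rw [h4]
    exact ⟨p, hpq.symm, fun h5 => hn h5.symm, fun x => (h3 x).trans or_comm⟩

/-- No edge between the private neighbours of `v` and `w`. -/
def NoCross (H : SimpleGraph X) (v w : X) : Prop :=
  ∀ x y, H.Adj v x → ¬ H.Adj w x → x ≠ w → H.Adj w y → ¬ H.Adj v y → y ≠ v → ¬ H.Adj x y

theorem noCross_of {H : SimpleGraph X} {v w : X} (h : ¬ Blocked H v w) : NoCross H v w := by
  intro x y h1 h2 h3 h4 h5 h6 h7
  exact h ⟨x, y, h1, h2, h3.symm, h4.symm, h7.symm, h5, h6⟩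

theorem two_ctr_v {H : SimpleGraph X} (h : Surf H) {v w : X} (hvw : H.Adj v w)
    (hF : NoCross H v w) (b : X) (hb : (ctr H v w).Adj v b) :
    ∃ p q, p ≠ q ∧ ¬ (ctr H v w).Adj p q ∧
      ∀ x, ((ctr H v w).Adj v x ∧ (ctr H v w).Adj b x) ↔ (x = p ∨ x = q) := by
  have hbv : b ≠ v := hb.1.symm
  have hbw : b ≠ w := hb.2.2.1
  have hb2 := (ctr_v hvw.ne hbv hbw).1 hb
  have hmem : ∀ x, ((ctr H v w).Adj v x ∧ (ctr H v w).Adj b x) ↔
      (x ≠ v ∧ x ≠ w ∧ (H.Adj v x ∨ H.Adj w x) ∧ H.Adj b x) := by
    intro x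
    constructor
    · rintro ⟨h1, h2⟩
      have hxv : x ≠ v := h1.1.symm
      have hxw : x ≠ w := h1.2.2.1
      exact ⟨hxv, hxw, (ctr_v hvw.ne hxv hxw).1 h1, (ctr_away hbv hbw hxv hxw).1 h2⟩
    · rintro ⟨hxv, hxw, h1, h2⟩
      exact ⟨(ctr_v hvw.ne hxv hxw).2 h1, (ctr_away hbv hbw hxv hxw).2 h2⟩
  by_cases h1 : H.Adj v b
  · by_cases h2 : H.Adj w b
    · obtain ⟨p, hp1, hp2, hp3⟩ := h.other h1 hvw h2.symm
      obtain ⟨q, hq1, hq2, hq3⟩ := h.other h2 hvw.symm h1.symm
      have hp := (hp3 p).2 (Or.inr rfl)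
      have hq := (hq3 q).2 (Or.inr rfl)
      refine ⟨p, q, ?_, ?_, fun x => ?_⟩
      · intro h3
        rw [← h3] at hq
        exact hp2 hq.1
      · rw [ctr_away hp.1.ne.symm hp1.symm hq1.symm hq.1.ne.symm]
        exact hF p q hp.1 hp2 hp1.symm hq.1 hq2 hq1.symm
      · rw [hmem x]
        constructor
        · rintro ⟨h3, h4, h5 | h5, h6⟩
          · rcases (hp3 x).1 ⟨h5, h6⟩ with h7 | h7
            · exact absurd h7 h4
            · exact Or.inl h7
          · rcases (hq3 x).1 ⟨h5, h6⟩ with h7 | h7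
            · exact absurd h7 h3
            · exact Or.inr h7
        · rintro (h3 | h3)
          · rw [h3]
            exact ⟨hp.1.ne.symm, hp1.symm, Or.inl hp.1, hp.2⟩
          · rw [h3]
            exact ⟨hq1.symm, hq.1.ne.symm, Or.inr hq.1, hq.2⟩
    · obtain ⟨r, s, hrs, hn, h3⟩ := h.two v b h1
      have hr := (h3 r).2 (Or.inl rfl)
      have hs := (h3 s).2 (Or.inr rfl)
      have hw : ∀ x, H.Adj b x → x ≠ w := by
        intro x h4 h5
        rw [h5] at h4
        exact h2 h4.symm
      refine ⟨r, s, hrs, ?_, fun x => ?_⟩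
      · rw [ctr_away hr.1.ne.symm (hw r hr.2) hs.1.ne.symm (hw s hs.2)]
        exact hn
      · rw [hmem x, ← h3 x]
        constructor
        · rintro ⟨h4, h5, h6, h7⟩
          refine ⟨?_, h7⟩
          by_contra h8
          rcases h6 with h6 | h6
          · exact h8 h6
          · exact hF b x h1 h2 hbw h6 h8 h4 h7
        · rintro ⟨h4, h5⟩
          exact ⟨h4.ne.symm, hw x h5, Or.inl h4, h5⟩
  · have h2 : H.Adj w b := by
      rcases hb2 with h2 | h2
      · exact absurd h2 h1
      · exact h2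
    obtain ⟨r, s, hrs, hn, h3⟩ := h.two w b h2
    have hr := (h3 r).2 (Or.inl rfl)
    have hs := (h3 s).2 (Or.inr rfl)
    have hv : ∀ x, H.Adj b x → x ≠ v := by
      intro x h4 h5
      rw [h5] at h4
      exact h1 h4.symm
    refine ⟨r, s, hrs, ?_, fun x => ?_⟩
    · rw [ctr_away (hv r hr.2) hr.1.ne.symm (hv s hs.2) hs.1.ne.symm]
      exact hn
    · rw [hmem x, ← h3 x]
      constructor
      · rintro ⟨h4, h5, h6, h7⟩
        refine ⟨?_, h7⟩
        by_contra h8
        rcases h6 with h6 | h6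
        · exact hF x b h6 h8 h5 h2 h1 hbv h7.symm
        · exact h8 h6
      · rintro ⟨h4, h5⟩
        exact ⟨hv x h5, h4.ne.symm, Or.inr h4, h5⟩

theorem two_ctr_away {H : SimpleGraph X} (h : Surf H) {v w : X} (hvw : H.Adj v w)
    (hF : NoCross H v w) (a b : X) (hav : a ≠ v) (haw : a ≠ w) (hbv : b ≠ v) (hbw : b ≠ w)
    (hab : H.Adj a b) :
    ∃ p q, p ≠ q ∧ ¬ (ctr H v w).Adj p q ∧
      ∀ x, ((ctr H v w).Adj a x ∧ (ctr H v w).Adj b x) ↔ (x = p ∨ x = q) := by
  obtain ⟨r, s, hrs, hn, h3⟩ := h.two a b hab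
  have hr := (h3 r).2 (Or.inl rfl)
  have hs := (h3 s).2 (Or.inr rfl)
  have hvw' : v ≠ w := hvw.ne
  -- adjacency to the contracted vertex
  have hv' : ∀ z, z ≠ v → z ≠ w → ((ctr H v w).Adj z v ↔ (H.Adj z v ∨ H.Adj z w)) := by
    intro z h1 h2
    rw [SimpleGraph.adj_comm, ctr_v hvw' h1 h2, SimpleGraph.adj_comm H v z,
      SimpleGraph.adj_comm H w z]
  have hcom : ((ctr H v w).Adj a v ∧ (ctr H v w).Adj b v) ↔
      ((H.Adj a v ∧ H.Adj b v) ∨ (H.Adj a w ∧ H.Adj b w)) := by
    rw [hv' a hav haw, hv' b hbv hbw]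
    constructor
    · rintro ⟨h1, h2⟩
      by_contra h4
      rw [not_or, not_and_or, not_and_or] at h4
      obtain ⟨h4, h5⟩ := h4
      have key : ∀ x y : X, x ≠ w → y ≠ v → H.Adj x y → H.Adj x v → ¬ H.Adj x w →
          H.Adj y w → ¬ H.Adj y v → False := by
        intro x y g1 g2 g3 g4 g5 g6 g7
        exact hF x y g4.symm (fun g => g5 g.symm) g1 g6.symm (fun g => g7 g.symm) g2 g3
      rcases h4 with h4 | h4
      · have h6 : H.Adj a w := h1.resolve_left h4
        have h7 : ¬ H.Adj b w := by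
          rcases h5 with h5 | h5
          · exact absurd h6 h5
          · exact h5
        have h8 : H.Adj b v := h2.resolve_right h7
        exact key b a hbw hav hab.symm h8 h7 h6 h4
      · have h6 : H.Adj b w := h2.resolve_left h4
        have h7 : ¬ H.Adj a w := by
          rcases h5 with h5 | h5
          · exact h5
          · exact absurd h6 h5
        have h8 : H.Adj a v := h1.resolve_right h7
        exact key a b haw hbv hab h8 h7 h6 h4
    · rintro (h1 | h1)
      · exact ⟨Or.inl h1.1, Or.inl h1.2⟩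
      · exact ⟨Or.inr h1.1, Or.inr h1.2⟩
  have hpne : ph v w r ≠ ph v w s := by
    intro h1
    by_cases h4 : r = w
    · rw [h4, ph_w] at h1
      by_cases h5 : s = w
      · exact hrs (h4.trans h5.symm)
      · rw [ph_ne h5] at h1
        apply hn
        rw [h4, ← h1]
        exact hvw.symm
    · rw [ph_ne h4] at h1
      by_cases h5 : s = w
      · rw [h5, ph_w] at h1
        apply hn
        rw [h1, h5]
        exact hvw
      · rw [ph_ne h5] at h1
        exact hrs h1
  refine ⟨ph v w r, ph v w s, hpne, ?_, fun x => ?_⟩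
  · -- nonadjacent
    -- `z` a common neighbour different from `v`, `w`; if `v` or `w` is the other one, `z` is
    -- not adjacent to the contracted vertex
    have key : ∀ z : X, H.Adj a z → H.Adj b z → z ≠ v → z ≠ w →
        (∀ x, (H.Adj a x ∧ H.Adj b x) ↔ (x = v ∨ x = z)) → ¬ H.Adj v z →
        ¬ (ctr H v w).Adj v z := by
      intro z h1 h2 h4 h5 h6 h7 h8
      have h9 := ((ctr_v hvw' h4 h5).1 h8).resolve_left h7
      have hva := ((h6 v).2 (Or.inl rfl)).1.symm
      have hvb := ((h6 v).2 (Or.inl rfl)).2.symm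
      have haw' : H.Adj a w := by
        by_contra h10
        exact hF a z hva (fun g => h10 g.symm) haw h9 h7 h4 h1
      have hbw' : H.Adj b w := by
        by_contra h10
        exact hF b z hvb (fun g => h10 g.symm) hbw h9 h7 h4 h2
      rcases (h6 w).1 ⟨haw', hbw'⟩ with h11 | h11
      · exact hvw' h11.symm
      · exact h5 h11.symm
    have key2 : ∀ z : X, H.Adj a z → H.Adj b z → z ≠ v → z ≠ w →
        (∀ x, (H.Adj a x ∧ H.Adj b x) ↔ (x = w ∨ x = z)) → ¬ H.Adj w z →
        ¬ (ctr H v w).Adj v z := by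
      intro z h1 h2 h4 h5 h6 h7 h8
      have h9 := ((ctr_v hvw' h4 h5).1 h8).resolve_right h7
      have hwa := ((h6 w).2 (Or.inl rfl)).1.symm
      have hwb := ((h6 w).2 (Or.inl rfl)).2.symm
      have hav' : H.Adj a v := by
        by_contra h10
        exact hF z a h9 h7 h5 hwa (fun g => h10 g.symm) hav h1.symm
      have hbv' : H.Adj b v := by
        by_contra h10
        exact hF z b h9 h7 h5 hwb (fun g => h10 g.symm) hbv h2.symm
      rcases (h6 v).1 ⟨hav', hbv'⟩ with h11 | h11
      · exact hvw' h11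
      · exact h4 h11.symm
    by_cases h4 : r = w
    · have h5 : s ≠ w := fun h5 => hrs (h4.trans h5.symm)
      have h6 : s ≠ v := by
        intro h6
        apply hn
        rw [h4, h6]
        exact hvw.symm
      rw [h4, ph_w, ph_ne h5]
      rw [h4] at h3 hn
      exact key2 s hs.1 hs.2 h6 h5 h3 hn
    · rw [ph_ne h4]
      by_cases h5 : s = w
      · rw [h5, ph_w]
        have h6 : r ≠ v := by
          intro h6
          apply hn
          rw [h5, h6]
          exact hvw
        rw [h5] at h3 hn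
        intro h7
        exact key2 r hr.1 hr.2 h6 h4 (fun x => (h3 x).trans or_comm) (fun g => hn g.symm) h7.symm
      · rw [ph_ne h5]
        by_cases h6 : r = v
        · rw [h6]
          rw [h6] at h3 hn
          refine key s hs.1 hs.2 ?_ h5 h3 hn
          intro h7
          exact hrs (h6.trans h7.symm)
        · by_cases h7 : s = v
          · rw [h7]
            rw [h7] at h3 hn
            intro h8
            exact key r hr.1 hr.2 h6 h4 (fun x => (h3 x).trans or_comm) (fun g => hn g.symm)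
              h8.symm
          · rw [ctr_away h6 h4 h7 h5]
            exact hn
  · by_cases hxw : x = w
    · rw [hxw]
      constructor
      · rintro ⟨h1, -⟩
        exact absurd rfl h1.2.2.1
      · rintro (h1 | h1)
        · exact absurd h1.symm (ph_ne_w hvw' r)
        · exact absurd h1.symm (ph_ne_w hvw' s)
    · by_cases hxv : x = v
      · rw [hxv, hcom, h3 v, h3 w]
        have h1 : ∀ z, v = ph v w z ↔ (v = z ∨ w = z) := by
          intro z
          by_cases h2 : z = w
          · rw [h2, ph_w]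
            exact ⟨fun _ => Or.inr rfl, fun _ => rfl⟩
          · rw [ph_ne h2]
            constructor
            · exact fun h => Or.inl h
            · rintro (h | h)
              · exact h
              · exact absurd h.symm h2
        rw [h1 r, h1 s]
        tauto
      · rw [ctr_away hav haw hxv hxw, ctr_away hbv hbw hxv hxw, h3 x]
        have h1 : ∀ z, x = ph v w z ↔ x = z := by
          intro z
          by_cases h2 : z = w
          · rw [h2, ph_w]
            exact ⟨fun h => absurd h hxv, fun h => absurd h hxw⟩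
          · rw [ph_ne h2]
        rw [h1 r, h1 s]

theorem two_ctr {H : SimpleGraph X} (h : Surf H) {v w : X} (hvw : H.Adj v w)
    (hF : NoCross H v w) (a b : X) (hab : (ctr H v w).Adj a b) :
    ∃ p q, p ≠ q ∧ ¬ (ctr H v w).Adj p q ∧
      ∀ x, ((ctr H v w).Adj a x ∧ (ctr H v w).Adj b x) ↔ (x = p ∨ x = q) := by
  by_cases ha : a = v
  · rw [ha] at hab ⊢
    exact two_ctr_v h hvw hF b hab
  · by_cases hb : b = v
    · rw [hb] at hab ⊢
      obtain ⟨p, q, h1, h2, h3⟩ := two_ctr_v h hvw hF a hab.symm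
      exact ⟨p, q, h1, h2, fun x => and_comm.trans (h3 x)⟩
    · exact two_ctr_away h hvw hF a b ha hab.2.1 hb hab.2.2.1
        ((ctr_away ha hab.2.1 hb hab.2.2.1).1 hab)

theorem adj_ph {H : SimpleGraph X} {v w a b : X} (hvw : v ≠ w) (hab : H.Adj a b) :
    ph v w a = ph v w b ∨ (ctr H v w).Adj (ph v w a) (ph v w b) := by
  by_cases h1 : ph v w a = ph v w b
  · exact Or.inl h1
  · right
    refine ⟨h1, ph_ne_w hvw a, ph_ne_w hvw b, ?_⟩
    by_cases h2 : a = w
    · rw [h2, ph_w]
      rw [h2] at hab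
      by_cases h3 : b = w
      · rw [h3] at hab
        exact absurd rfl hab.ne
      · rw [ph_ne h3]
        exact Or.inr (Or.inl ⟨rfl, hab⟩)
    · rw [ph_ne h2]
      by_cases h3 : b = w
      · rw [h3] at hab ⊢
        rw [ph_w]
        exact Or.inr (Or.inr ⟨rfl, hab.symm⟩)
      · rw [ph_ne h3]
        exact Or.inl hab

theorem lift_nb {H : SimpleGraph X} {v w a b : X} (hav : a ≠ v)
    (hab : (ctr H v w).Adj a b) : ∃ b', ph v w b' = b ∧ H.Adj a b' := by
  obtain ⟨h1, h2, h3, h4 | h4 | h4⟩ := hab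
  · exact ⟨b, ph_ne h3, h4⟩
  · exact absurd h4.1 hav
  · exact ⟨w, by rw [ph_w, h4.1], h4.2.symm⟩

theorem lift_edge {H : SimpleGraph X} {v w a b : X}
    (hab : (ctr H v w).Adj a b) : ∃ a' b', ph v w a' = a ∧ ph v w b' = b ∧ H.Adj a' b' := by
  obtain ⟨h1, h2, h3, h4 | h4 | h4⟩ := hab
  · exact ⟨a, b, ph_ne h2, ph_ne h3, h4⟩
  · exact ⟨w, b, by rw [ph_w, h4.1], ph_ne h3, h4.2⟩
  · exact ⟨a, w, ph_ne h2, by rw [ph_w, h4.1], h4.2.symm⟩

theorem lk_ctr [Fintype X] {H : SimpleGraph X} (h : Surf H) {v w : X} (hvw : H.Adj v w)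
    (u : X) (P : X → Prop)
    (hP : ∀ a b, (ctr H v w).Adj u a → (ctr H v w).Adj u b → (ctr H v w).Adj a b → P a → P b)
    (a b : X) (ha : (ctr H v w).Adj u a) (hb : (ctr H v w).Adj u b) (hPa : P a) : P b := by
  have hvw' : v ≠ w := hvw.ne
  have hsurf := h
  by_cases hu : u = v
  · rw [hu] at hP ha hb
    obtain ⟨p, q, -, -, h2⟩ := h.two v w hvw
    have hp := (h2 p).2 (Or.inl rfl)
    have hnv : ∀ x, H.Adj v x → x ≠ w → (ctr H v w).Adj v x := by
      intro x h3 h4
      exact (ctr_v hvw' h3.ne.symm h4).2 (Or.inl h3)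
    have hnw : ∀ x, H.Adj w x → x ≠ v → (ctr H v w).Adj v x := by
      intro x h3 h4
      exact (ctr_v hvw' h4 h3.ne.symm).2 (Or.inr h3)
    have k1 : ∀ x y, H.Adj v x → H.Adj v y → x ≠ w → y ≠ w → P x → P y := by
      intro x y h3 h4 h5 h6
      refine link_minus h hvw P ?_ x y h3 h4 h5 h6
      intro a b h7 h8 h9 h10 h11
      exact hP a b (hnv a h7 h9) (hnv b h8 h10)
        ((ctr_away h7.ne.symm h9 h8.ne.symm h10).2 h11)
    have k2 : ∀ x y, H.Adj w x → H.Adj w y → x ≠ v → y ≠ v → P x → P y := by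
      intro x y h3 h4 h5 h6
      refine link_minus h hvw.symm P ?_ x y h3 h4 h5 h6
      intro a b h7 h8 h9 h10 h11
      exact hP a b (hnw a h7 h9) (hnw b h8 h10)
        ((ctr_away h9 h7.ne.symm h10 h8.ne.symm).2 h11)
    have hpv : p ≠ v := hp.1.ne.symm
    have hpw : p ≠ w := hp.2.ne.symm
    have k3 : P p := by
      rcases (ctr_v hvw' ha.1.symm ha.2.2.1).1 ha with h3 | h3
      · exact k1 a p h3 hp.1 ha.2.2.1 hpw hPa
      · exact k2 a p h3 hp.2 ha.1.symm hpv hPa
    rcases (ctr_v hvw' hb.1.symm hb.2.2.1).1 hb with h3 | h3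
    · exact k1 p b hp.1 h3 hpw hb.2.2.1 k3
    · exact k2 p b hp.2 h3 hpv hb.1.symm k3
  · have huw : u ≠ w := ha.2.1
    obtain ⟨a', ha1, ha2⟩ := lift_nb hu ha
    obtain ⟨b', hb1, hb2⟩ := lift_nb hu hb
    have key := h.lk u (fun z => P (ph v w z)) ?_ a' b' ha2 hb2
    · rw [ha1, hb1] at key
      exact key hPa
    · intro x y h1 h2 h3 h4
      rcases adj_ph hvw' h3 with h5 | h5
      · rw [← h5]
        exact h4
      · have h6 : ∀ z, H.Adj u z → (ctr H v w).Adj u (ph v w z) := by
          intro z hz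
          have h7 := adj_ph (v := v) (w := w) hvw' hz
          rw [ph_ne huw] at h7
          rcases h7 with h7 | h7
          · exfalso
            by_cases h8 : z = w
            · rw [h8, ph_w] at h7
              exact hu h7
            · rw [ph_ne h8] at h7
              exact hz.ne h7
          · exact h7
        exact hP _ _ (h6 x h1) (h6 y h2) h5 h4

theorem card_nb_v [Fintype X] {H : SimpleGraph X} (h : Surf H) {v w : X} (hvw : H.Adj v w) :
    (nb (ctr H v w) v).card + 4 = (nb H v).card + (nb H w).card := by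
  classical
  obtain ⟨p, q, hpq, -, h1⟩ := h.two v w hvw
  have h2 : nb (ctr H v w) v = (nb H v ∪ nb H w) \ {v, w} := by
    ext x
    rw [mem_nb, mem_sdiff, mem_union, mem_nb, mem_nb, mem_insert, mem_singleton, not_or]
    constructor
    · intro hx
      exact ⟨(ctr_v hvw.ne hx.1.symm hx.2.2.1).1 hx, hx.1.symm, hx.2.2.1⟩
    · rintro ⟨h3, h4, h5⟩
      exact (ctr_v hvw.ne h4 h5).2 h3
  have h3 : ({v, w} : Finset X) ⊆ nb H v ∪ nb H w := by
    intro x hx
    rw [mem_insert, mem_singleton] at hx
    rw [mem_union, mem_nb, mem_nb]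
    rcases hx with hx | hx
    · rw [hx]
      exact Or.inr hvw.symm
    · rw [hx]
      exact Or.inl hvw
  have h4 : nb H v ∩ nb H w = {p, q} := by
    ext x
    rw [mem_inter, mem_nb, mem_nb, mem_insert, mem_singleton]
    exact h1 x
  have h5 := Finset.card_union_add_card_inter (nb H v) (nb H w)
  rw [h4, card_pair hpq] at h5
  have h6 := Finset.card_sdiff_add_card_eq_card h3
  rw [card_pair hvw.ne] at h6
  rw [h2]
  omega

theorem card_nb_u [Fintype X] [DecidableEq X] {H : SimpleGraph X} {v w p q : X}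
    (hvw : H.Adj v w) (hpq : ∀ x, (H.Adj v x ∧ H.Adj w x) ↔ (x = p ∨ x = q)) (u : X)
    (huv : u ≠ v) (huw : u ≠ w) :
    (nb (ctr H v w) u).card + (if u = p ∨ u = q then 1 else 0) = (nb H u).card := by
  by_cases h1 : H.Adj u w
  · by_cases h2 : H.Adj u v
    · rw [if_pos ((hpq u).1 ⟨h2.symm, h1.symm⟩)]
      have h3 : nb (ctr H v w) u = (nb H u).erase w := by
        ext x
        rw [mem_nb, mem_erase, mem_nb]
        by_cases hxv : x = v
        · rw [hxv]
          constructor
          · intro _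
            exact ⟨hvw.ne, h2⟩
          · intro _
            exact ((ctr_v hvw.ne huv huw).2 (Or.inl h2.symm)).symm
        · constructor
          · intro hx
            exact ⟨hx.2.2.1, (ctr_away huv huw hxv hx.2.2.1).1 hx⟩
          · rintro ⟨h4, h5⟩
            exact (ctr_away huv huw hxv h4).2 h5
      rw [h3]
      exact Finset.card_erase_add_one (mem_nb.2 h1)
    · rw [if_neg (fun h3 => h2 ((hpq u).2 h3).1.symm), add_zero]
      have h3 : nb (ctr H v w) u = insert v ((nb H u).erase w) := by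
        ext x
        rw [mem_nb, mem_insert, mem_erase, mem_nb]
        by_cases hxv : x = v
        · rw [hxv]
          constructor
          · intro _
            exact Or.inl rfl
          · intro _
            exact ((ctr_v hvw.ne huv huw).2 (Or.inr h1.symm)).symm
        · constructor
          · intro hx
            exact Or.inr ⟨hx.2.2.1, (ctr_away huv huw hxv hx.2.2.1).1 hx⟩
          · rintro (h4 | ⟨h4, h5⟩)
            · exact absurd h4 hxv
            · exact (ctr_away huv huw hxv h4).2 h5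
      rw [h3, card_insert_of_notMem]
      · exact Finset.card_erase_add_one (mem_nb.2 h1)
      · rw [mem_erase, mem_nb]
        exact fun h4 => h2 h4.2
  · rw [if_neg (fun h3 => h1 ((hpq u).2 h3).2.symm), add_zero]
    have h3 : nb (ctr H v w) u = nb H u := by
      ext x
      rw [mem_nb, mem_nb]
      by_cases hxv : x = v
      · rw [hxv]
        rw [SimpleGraph.adj_comm, ctr_v hvw.ne huv huw, SimpleGraph.adj_comm H u v]
        constructor
        · rintro (h4 | h4)
          · exact h4
          · exact absurd h4.symm h1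
        · exact fun h4 => Or.inl h4
      · constructor
        · intro hx
          exact (ctr_away huv huw hxv hx.2.2.1).1 hx
        · intro h4
          refine (ctr_away huv huw hxv ?_).2 h4
          intro h5
          rw [h5] at h4
          exact h1 h4
    rw [h3]

/-- The contraction of an edge in no induced 4-cycle is again a sphere. -/
theorem sph_ctr [Fintype X] [DecidableEq X] {H : SimpleGraph X} {A : Finset X} (h : Sph H A)
    {v w : X} (hvw : H.Adj v w) (hB : ¬ Blocked H v w) : Sph (ctr H v w) (A.erase w) := by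
  have hF := noCross_of hB
  have hvw' : v ≠ w := hvw.ne
  refine ⟨?_, two_ctr h.surf hvw hF, ?_, ?_, ?_, ?_⟩
  · intro a b hab
    rw [mem_erase]
    refine ⟨hab.2.1, ?_⟩
    obtain ⟨-, -, -, h1 | h1 | h1⟩ := hab
    · exact h.sup a b h1
    · rw [h1.1]
      exact h.sup v w hvw
    · exact h.sup a w h1.2.symm
  · intro u P hP a b ha hb hPa
    exact lk_ctr h.surf hvw u P hP a b ha hb hPa
  · intro P hP a ha b hb hPa
    rw [mem_erase] at ha hb
    have key := h.con (fun z => P (ph v w z)) ?_ a ha.2 b hb.2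
    · rw [ph_ne ha.1, ph_ne hb.1] at key
      exact key hPa
    · intro x y hxy h1
      rcases adj_ph hvw' hxy with h2 | h2
      · rw [← h2]
        exact h1
      · exact hP _ _ h2 h1
  · intro f hf1 hf2
    have hsymm : ∀ a b : X, (if ph v w a = ph v w b then (0 : ZMod 2)
        else f (ph v w a) (ph v w b)) =
        if ph v w b = ph v w a then 0 else f (ph v w b) (ph v w a) := by
      intro a b
      by_cases h1 : ph v w a = ph v w b
      · rw [if_pos h1, if_pos h1.symm]
      · rw [if_neg h1, if_neg (fun h2 => h1 h2.symm), hf1]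
    have hcoc : ∀ a b c, H.Adj a b → H.Adj b c → H.Adj a c →
        (if ph v w a = ph v w b then (0 : ZMod 2) else f (ph v w a) (ph v w b)) +
        (if ph v w b = ph v w c then 0 else f (ph v w b) (ph v w c)) +
        (if ph v w a = ph v w c then 0 else f (ph v w a) (ph v w c)) = 0 := by
      intro a b c hab hbc hac
      by_cases h1 : ph v w a = ph v w b
      · rw [if_pos h1, ← h1, zero_add]
        exact CharTwo.add_self_eq_zero _
      · rw [if_neg h1]
        by_cases h2 : ph v w b = ph v w c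
        · rw [if_pos h2, ← h2, if_neg h1, add_zero]
          exact CharTwo.add_self_eq_zero _
        · rw [if_neg h2]
          by_cases h3 : ph v w a = ph v w c
          · rw [if_pos h3, h3, hf1 (ph v w b), add_zero]
            exact CharTwo.add_self_eq_zero _
          · rw [if_neg h3]
            exact hf2 _ _ _ ((adj_ph hvw' hab).resolve_left h1)
              ((adj_ph hvw' hbc).resolve_left h2) ((adj_ph hvw' hac).resolve_left h3)
    obtain ⟨g, hg⟩ := h.coh
      (fun a b => if ph v w a = ph v w b then 0 else f (ph v w a) (ph v w b)) hsymm hcoc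
    have hgw : g v = g w := by
      have h1 := hg v w hvw
      simp only [ph_w, ph_ne hvw', if_true] at h1
      exact (CharTwo.add_eq_zero.1 h1.symm)
    have hgp : ∀ z, g (ph v w z) = g z := by
      intro z
      by_cases h1 : z = w
      · rw [h1, ph_w, hgw]
      · rw [ph_ne h1]
    refine ⟨g, fun a b hab => ?_⟩
    obtain ⟨a', b', h1, h2, h3⟩ := lift_edge hab
    have h4 := hg a' b' h3
    simp only [h1, h2] at h4
    rw [if_neg hab.1] at h4
    rw [h4, ← hgp a', ← hgp b', h1, h2]
  · have hvA : v ∈ A := h.sup v w hvw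
    have hwA : w ∈ A := h.sup w v hvw.symm
    obtain ⟨p, q, hpq, -, h1⟩ := h.two v w hvw
    have hp := (h1 p).2 (Or.inl rfl)
    have hq := (h1 q).2 (Or.inr rfl)
    have hvE : v ∈ A.erase w := mem_erase.2 ⟨hvw', hvA⟩
    have h2 := Finset.add_sum_erase (A.erase w) (fun u => (nb (ctr H v w) u).card) hvE
    have h3 := Finset.add_sum_erase A (fun u => (nb H u).card) hwA
    have h4 := Finset.add_sum_erase (A.erase w) (fun u => (nb H u).card) hvE
    have h5 : ∑ u ∈ (A.erase w).erase v, (nb (ctr H v w) u).card + 2 =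
        ∑ u ∈ (A.erase w).erase v, (nb H u).card := by
      have h6 : ∑ u ∈ (A.erase w).erase v, (if u = p ∨ u = q then 1 else 0) = 2 := by
        rw [← Finset.sum_filter, ← Finset.card_eq_sum_ones]
        have h7 : ((A.erase w).erase v).filter (fun u => u = p ∨ u = q) = {p, q} := by
          ext x
          rw [mem_filter, mem_insert, mem_singleton, mem_erase, mem_erase]
          constructor
          · exact fun h => h.2
          · rintro (h8 | h8)
            · rw [h8]
              exact ⟨⟨hp.1.ne.symm, hp.2.ne.symm, h.sup p v hp.1.symm⟩, Or.inl rfl⟩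
            · rw [h8]
              exact ⟨⟨hq.1.ne.symm, hq.2.ne.symm, h.sup q v hq.1.symm⟩, Or.inr rfl⟩
        rw [h7, card_pair hpq]
      rw [← h6, ← Finset.sum_add_distrib]
      refine Finset.sum_congr rfl fun u hu => ?_
      rw [mem_erase, mem_erase] at hu
      exact card_nb_u hvw h1 u hu.1 hu.2.1
    have h6 := card_nb_v h.surf hvw
    have h7 := h.deg
    have h8 := Finset.card_erase_add_one hwA
    omega

end Pool.Agent.Helper84.FS
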