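import Mathlib

/-!
# Flag 2-spheres: the invariant

`Sph H A`: the clique complex of the graph `H` on the vertex set `A` is a closed surface (every
edge in exactly two triangles, no complete graph on four vertices, connected links), connected,
with vanishing first cohomology modulo two and with the number of edges of a sphere.
-/

open Finset

namespace Pool.Agent.Helper84.FS

variable {X : Type}

open scoped Classical in
/-- The neighbours of `u`. -/
noncomputable def nb [Fintype X] (H : SimpleGraph X) (u : X) : Finset X :=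
  univ.filter (fun x => H.Adj u x)

theorem mem_nb [Fintype X] {H : SimpleGraph X} {u x : X} : x ∈ nb H u ↔ H.Adj u x := by
  simp [nb]

/-- The clique complex of `H` on `A` is a closed connected surface that looks like a sphere. -/
structure Sph [Fintype X] (H : SimpleGraph X) (A : Finset X) : Prop where
  sup : ∀ a b, H.Adj a b → a ∈ A
  two : ∀ a b, H.Adj a b → ∃ p q, p ≠ q ∧ ¬ H.Adj p q ∧
    ∀ x, (H.Adj a x ∧ H.Adj b x) ↔ (x = p ∨ x = q)
  lk : ∀ u, ∀ P : X → Prop,
    (∀ a b, H.Adj u a → H.Adj u b → H.Adj a b → P a → P b) →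
    ∀ a b, H.Adj u a → H.Adj u b → P a → P b
  con : ∀ P : X → Prop, (∀ a b, H.Adj a b → P a → P b) → ∀ a ∈ A, ∀ b ∈ A, P a → P b
  coh : ∀ f : X → X → ZMod 2, (∀ a b, f a b = f b a) →
    (∀ a b c, H.Adj a b → H.Adj b c → H.Adj a c → f a b + f b c + f a c = 0) →
    ∃ g : X → ZMod 2, ∀ a b, H.Adj a b → f a b = g a + g b
  deg : ∑ u ∈ A, (nb H u).card + 12 = 6 * A.card

/-- A sum over ordered pairs with symmetric pairs cancelling. -/
theorem sum_pairs_zero (S : Finset X) (h : X → X → ZMod 2) (h1 : ∀ a b, h a b + h b a = 0)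
    (h2 : ∀ a, h a a = 0) : ∑ a ∈ S, ∑ b ∈ S, h a b = 0 := by
  classical
  rw [← Finset.sum_product']
  refine Finset.sum_involution (fun p _ => (p.2, p.1)) ?_ ?_ ?_ ?_
  · rintro ⟨a, b⟩ _
    exact h1 a b
  · rintro ⟨a, b⟩ _ h3 h4
    simp only [Prod.mk.injEq] at h4
    apply h3
    change h a b = 0
    rw [h4.1]
    exact h2 a
  · rintro ⟨a, b⟩ h3
    simp only [mem_product] at h3 ⊢
    exact ⟨h3.2, h3.1⟩
  · rintro ⟨a, b⟩ _
    rfl

/-- The weaker hypotheses that make the clique complex of `H` a closed surface. -/
structure Surf (H : SimpleGraph X) : Prop where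
  two : ∀ a b, H.Adj a b → ∃ p q, p ≠ q ∧ ¬ H.Adj p q ∧
    ∀ x, (H.Adj a x ∧ H.Adj b x) ↔ (x = p ∨ x = q)
  lk : ∀ u, ∀ P : X → Prop,
    (∀ a b, H.Adj u a → H.Adj u b → H.Adj a b → P a → P b) →
    ∀ a b, H.Adj u a → H.Adj u b → P a → P b

theorem Sph.surf [Fintype X] {H : SimpleGraph X} {A : Finset X} (h : Sph H A) : Surf H :=
  ⟨h.two, h.lk⟩

/-- A function on the triangles at `u` that does not change across the edges at `u` is constant. -/
theorem link_const {H : SimpleGraph X} (h : Surf H) (s : X → X → X → ZMod 2) (u : X)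
    (hs : ∀ p q, s u p q = s u q p)
    (h1 : ∀ p r1 r2, H.Adj u p → H.Adj u r1 → H.Adj p r1 → H.Adj u r2 → H.Adj p r2 →
      s u p r1 = s u p r2) :
    ∃ c : ZMod 2, ∀ p q, H.Adj u p → H.Adj u q → H.Adj p q → s u p q = c := by
  by_cases h2 : ∃ p, H.Adj u p
  · obtain ⟨p0, hp0⟩ := h2
    obtain ⟨q0, q1, -, -, h4⟩ := h.two u p0 hp0
    have h5 := (h4 q0).2 (Or.inl rfl)
    refine ⟨s u p0 q0, fun p q hp hq hpq => ?_⟩
    have key := h.lk u (fun z => ∀ r, H.Adj u r → H.Adj z r → s u z r = s u p0 q0) ?_ p0 p hp0 hp ?_
    · exact key q hq hpq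
    · intro a b ha hb hab h6 r hr hbr
      rw [h1 b r a hb hr hbr ha hab.symm, hs b a]
      exact h6 b hb hab
    · intro r hr hr2
      exact h1 p0 r q0 hp0 hr hr2 h5.1 h5.2
  · refine ⟨0, fun p q hp => absurd ⟨p, hp⟩ h2⟩

/-- The link of `v` without the vertex `w` is connected. -/
theorem link_minus [Fintype X] {H : SimpleGraph X} (h : Surf H) {v w : X} (hvw : H.Adj v w)
    (P : X → Prop)
    (h1 : ∀ a b, H.Adj v a → H.Adj v b → a ≠ w → b ≠ w → H.Adj a b → P a → P b) (a b : X)
    (ha : H.Adj v a) (hb : H.Adj v b) (haw : a ≠ w) (hbw : b ≠ w) (hPa : P a) : P b := by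
  classical
  by_contra hPb
  obtain ⟨p, q, hpq, hnpq, h2⟩ := h.two v w hvw
  -- the two neighbours of `w` in the link get the same value
  have key : ∀ p q : X, p ≠ q → (∀ x, (H.Adj v x ∧ H.Adj w x) ↔ (x = p ∨ x = q)) → P p → P q := by
    intro p q hpq h2 hPp
    by_contra hPq
    have hp := (h2 p).2 (Or.inl rfl)
    have hq := (h2 q).2 (Or.inr rfl)
    set S : Finset X := univ.filter (fun z => H.Adj v z ∧ z ≠ w ∧ P z) with hS
    have hmS : ∀ z, z ∈ S ↔ H.Adj v z ∧ z ≠ w ∧ P z := by
      intro z
      rw [hS, mem_filter]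
      simp
    have h3 := sum_pairs_zero S (fun a b => if H.Adj a b then 1 else 0) ?_ ?_
    · have h4 : ∀ z ∈ S, (∑ z' ∈ S, if H.Adj z z' then (1 : ZMod 2) else 0) =
          if z = p then 1 else 0 := by
        intro z hz
        have hz' := (hmS z).1 hz
        obtain ⟨r, t, hrt, -, h5⟩ := h.two v z hz'.1
        rw [← Finset.sum_filter, Finset.sum_const, nsmul_eq_mul, mul_one]
        have hr := (h5 r).2 (Or.inl rfl)
        have ht := (h5 t).2 (Or.inr rfl)
        by_cases hzp : z = p
        · rw [if_pos hzp]
          have hw : w = r ∨ w = t := by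
            rw [← h5 w]
            rw [hzp]
            exact ⟨hvw, hp.2.symm⟩
          have h6 : S.filter (fun z' => H.Adj z z') = {if w = r then t else r} := by
            ext z'
            rw [mem_filter, mem_singleton, hmS]
            constructor
            · rintro ⟨⟨h7, h8, -⟩, h9⟩
              rcases (h5 z').1 ⟨h7, h9⟩ with h10 | h10
              · rcases hw with hw | hw
                · exact absurd (h10.trans hw.symm) h8
                · rw [if_neg]
                  · exact h10
                  · intro h11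
                    exact hrt (h11.symm.trans hw)
              · rcases hw with hw | hw
                · rw [if_pos hw]
                  exact h10
                · exact absurd (h10.trans hw.symm) h8
            · intro h7
              rcases hw with hw | hw
              · rw [if_pos hw] at h7
                have h8 : z' ≠ w := by
                  rw [h7, hw]
                  exact hrt.symm
                rw [h7] at h8 ⊢
                exact ⟨⟨ht.1, h8, h1 z t hz'.1 ht.1 hz'.2.1 h8 ht.2 hz'.2.2⟩, ht.2⟩
              · rw [if_neg (fun h11 => hrt (h11.symm.trans hw))] at h7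
                have h8 : z' ≠ w := by
                  rw [h7, hw]
                  exact hrt
                rw [h7] at h8 ⊢
                exact ⟨⟨hr.1, h8, h1 z r hz'.1 hr.1 hz'.2.1 h8 hr.2 hz'.2.2⟩, hr.2⟩
          rw [h6, card_singleton, Nat.cast_one]
        · rw [if_neg hzp]
          have hzq : z ≠ q := by
            intro h6
            exact hPq (h6 ▸ hz'.2.2)
          have hzw : ¬ H.Adj w z := by
            intro h6
            rcases (h2 z).1 ⟨hz'.1, h6⟩ with h7 | h7
            · exact hzp h7
            · exact hzq h7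
          have h6 : S.filter (fun z' => H.Adj z z') = {r, t} := by
            ext z'
            rw [mem_filter, mem_insert, mem_singleton, hmS, ← h5 z']
            constructor
            · rintro ⟨⟨h7, -, -⟩, h9⟩
              exact ⟨h7, h9⟩
            · rintro ⟨h7, h8⟩
              have h9 : z' ≠ w := by
                intro h10
                apply hzw
                rw [← h10]
                exact h8.symm
              exact ⟨⟨h7, h9, h1 z z' hz'.1 h7 hz'.2.1 h9 h8 hz'.2.2⟩, h8⟩
          rw [h6, card_pair hrt]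
          decide
      rw [Finset.sum_congr rfl h4, Finset.sum_ite_eq' S p] at h3
      rw [if_pos ((hmS p).2 ⟨hp.1, hp.2.ne.symm, hPp⟩)] at h3
      exact absurd h3 (by decide)
    · intro a b
      by_cases h4 : H.Adj a b
      · rw [if_pos h4, if_pos h4.symm]
        decide
      · rw [if_neg h4, if_neg (fun h5 => h4 h5.symm)]
        decide
    · intro a
      rw [if_neg (H.irrefl)]
  have key1 : P p → P q := key p q hpq h2
  have key2 : P q → P p := key q p hpq.symm (fun x => (h2 x).trans or_comm)
  have h3 := h.lk v (fun z => if z = w then P p else P z) ?_ a b ha hb ?_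
  · rw [if_neg hbw] at h3
    exact hPb h3
  · intro z z' hz hz' hzz
    by_cases hzw : z = w
    · rw [if_pos hzw]
      rw [hzw] at hzz
      rw [if_neg hzz.ne.symm]
      intro h4
      rcases (h2 z').1 ⟨hz', hzz⟩ with h5 | h5
      · rw [h5]
        exact h4
      · rw [h5]
        exact key1 h4
    · rw [if_neg hzw]
      by_cases hzw' : z' = w
      · rw [if_pos hzw']
        rw [hzw'] at hzz
        intro h4
        rcases (h2 z).1 ⟨hz, hzz.symm⟩ with h5 | h5
        · rw [h5] at h4
          exact h4
        · rw [h5] at h4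
          exact key2 h4
      · rw [if_neg hzw']
        exact h1 z z' hz hz' hzw hzw' hzz
  · rw [if_neg haw]
    exact hPa

end Pool.Agent.Helper84.FS
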