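import Pool.Agent.Helper84.FS.Defs

/-!
# Flag 2-spheres: cycles modulo two bound

If the first cohomology modulo two vanishes then every one-dimensional cycle is a boundary.
-/

open Finset

namespace Pool.Agent.Helper84.FS

variable {X : Type}

open scoped Classical in
/-- The indicator of `a`. -/
noncomputable def e (x a : X) : ZMod 2 := if x = a then 1 else 0

/-- The indicator of the pair `(a, b)`. -/
noncomputable def E (a b : X) : X → X → ZMod 2 := fun x y => e x a * e y b

theorem sum_e [Fintype X] (a : X) : ∑ x, e x a = 1 := by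
  classical
  simp [e]

theorem eq_sum_E [Fintype X] (z : X → X → ZMod 2) : z = ∑ a, ∑ b, z a b • E a b := by
  classical
  funext x y
  simp only [Finset.sum_apply, Pi.smul_apply, E, e, smul_eq_mul]
  simp

/-- The boundary of the triangle `{a, b, c}`. -/
noncomputable def bd (a b c : X) : X → X → ZMod 2 :=
  E a b + E b a + E b c + E c b + E a c + E c a

/-- The indicator of the triangle `{a, b, c}`. -/
noncomputable def tri (a b c x y z : X) : ZMod 2 :=
  e x a * e y b * e z c + e x b * e y a * e z c + e x b * e y c * e z a + e x c * e y b * e z a +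
    e x a * e y c * e z b + e x c * e y a * e z b

theorem e_ne {x a : X} (h : e x a ≠ 0) : x = a := by
  classical
  by_contra h1
  exact h (by simp [e, h1])

theorem tri_swap1 (a b c x y z : X) : tri a b c x y z = tri a b c y x z := by
  unfold tri
  ring

theorem tri_swap2 (a b c x y z : X) : tri a b c x y z = tri a b c x z y := by
  unfold tri
  ring

theorem tri_sup {H : SimpleGraph X} {a b c : X} (h1 : H.Adj a b) (h2 : H.Adj b c)
    (h3 : H.Adj a c) (x y z : X) (h : tri a b c x y z ≠ 0) :
    H.Adj x y ∧ H.Adj y z ∧ H.Adj x z := by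
  by_contra hc
  apply h
  have key : ∀ a' b' c' : X, H.Adj a' b' → H.Adj b' c' → H.Adj a' c' →
      e x a' * e y b' * e z c' = 0 := by
    intro a' b' c' h1 h2 h3
    by_contra h4
    apply hc
    have h5 := e_ne (right_ne_zero_of_mul h4)
    have h6 := e_ne (right_ne_zero_of_mul (left_ne_zero_of_mul h4))
    have h7 := e_ne (left_ne_zero_of_mul (left_ne_zero_of_mul h4))
    rw [h5, h6, h7]
    exact ⟨h1, h2, h3⟩
  unfold tri
  rw [key a b c h1 h2 h3, key b a c h1.symm h3 h2, key b c a h2 h3.symm h1.symm,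
    key c b a h2.symm h1.symm h3.symm, key a c b h3 h2.symm h1, key c a b h3.symm h1 h2.symm]
  simp

theorem tri_sum [Fintype X] (a b c x y : X) : ∑ z, tri a b c x y z = bd a b c x y := by
  unfold tri bd E
  simp only [Finset.sum_add_distrib, ← Finset.mul_sum, sum_e, mul_one, Pi.add_apply]

theorem cycle_bounds [Fintype X] (H : SimpleGraph X)
    (coh : ∀ f : X → X → ZMod 2, (∀ a b, f a b = f b a) →
      (∀ a b c, H.Adj a b → H.Adj b c → H.Adj a c → f a b + f b c + f a c = 0) →
      ∃ g : X → ZMod 2, ∀ a b, H.Adj a b → f a b = g a + g b)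
    (C : X → X → ZMod 2) (hsym : ∀ a b, C a b = C b a) (hsup : ∀ a b, C a b ≠ 0 → H.Adj a b)
    (hcyc : ∀ a, ∑ b, C a b = 0) :
    ∃ s : X → X → X → ZMod 2, (∀ a b c, s a b c = s b a c) ∧ (∀ a b c, s a b c = s a c b) ∧
      (∀ a b c, s a b c ≠ 0 → H.Adj a b ∧ H.Adj b c ∧ H.Adj a c) ∧
      ∀ a b, ∑ p, s a b p = C a b := by
  classical
  set M : Submodule (ZMod 2) (X → X → ZMod 2) := Submodule.span (ZMod 2)
    {z | ∃ a b c, H.Adj a b ∧ H.Adj b c ∧ H.Adj a c ∧ z = bd a b c} with hM
  have hCM : C ∈ M := by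
    by_contra hC
    obtain ⟨φ, h1, h2⟩ := Submodule.exists_le_ker_of_notMem hC
    apply h1
    have hcoc : ∀ a b c, H.Adj a b → H.Adj b c → H.Adj a c →
        φ (E a b) + φ (E b a) + (φ (E b c) + φ (E c b)) + (φ (E a c) + φ (E c a)) = 0 := by
      intro a b c hab hbc hac
      have h3 : bd a b c ∈ M := Submodule.subset_span ⟨a, b, c, hab, hbc, hac, rfl⟩
      have h4 : φ (bd a b c) = 0 := h2 h3
      unfold bd at h4
      simp only [map_add] at h4
      rw [← h4]
      ring
    obtain ⟨g, hg⟩ := coh (fun a b => φ (E a b) + φ (E b a)) (fun a b => add_comm _ _) hcoc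
    · have h3 : φ C = ∑ a, ∑ b, C a b * φ (E a b) := by
        conv_lhs => rw [eq_sum_E C]
        rw [map_sum]
        refine Finset.sum_congr rfl fun a _ => ?_
        rw [map_sum]
        refine Finset.sum_congr rfl fun b _ => ?_
        rw [map_smul, smul_eq_mul]
      have h4 := sum_pairs_zero (univ : Finset X) (fun a b => C a b * (φ (E a b) + g a)) ?_ ?_
      · have h5 : (∑ a, ∑ b, C a b * (φ (E a b) + g a)) =
            (∑ a, ∑ b, C a b * φ (E a b)) + ∑ a, (∑ b, C a b) * g a := by
          rw [← Finset.sum_add_distrib]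
          refine Finset.sum_congr rfl fun a _ => ?_
          rw [Finset.sum_mul, ← Finset.sum_add_distrib]
          exact Finset.sum_congr rfl fun b _ => mul_add _ _ _
        rw [h5] at h4
        have h6 : (∑ a, (∑ b, C a b) * g a) = 0 :=
          Finset.sum_eq_zero fun a _ => by rw [hcyc a, zero_mul]
        rw [h6, add_zero] at h4
        rw [h3, h4]
      · intro a b
        by_cases h7 : C a b = 0
        · rw [hsym b a, h7]
          simp
        · have h8 := hg a b (hsup a b h7)
          have h9 : C a b * (φ (E a b) + g a) + C b a * (φ (E b a) + g b) =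
              C a b * ((φ (E a b) + φ (E b a)) + (g a + g b)) := by
            rw [hsym b a]
            ring
          rw [h9, h8, CharTwo.add_self_eq_zero, mul_zero]
      · intro a
        have h7 : C a a = 0 := by
          by_contra h8
          exact H.irrefl (hsup a a h8)
        rw [h7, zero_mul]
  refine Submodule.span_induction (p := fun C _ =>
    ∃ s : X → X → X → ZMod 2, (∀ a b c, s a b c = s b a c) ∧ (∀ a b c, s a b c = s a c b) ∧
      (∀ a b c, s a b c ≠ 0 → H.Adj a b ∧ H.Adj b c ∧ H.Adj a c) ∧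
      ∀ a b, ∑ p, s a b p = C a b) ?_ ?_ ?_ ?_ hCM
  · rintro z ⟨a, b, c, h1, h2, h3, rfl⟩
    exact ⟨tri a b c, tri_swap1 a b c, tri_swap2 a b c, tri_sup h1 h2 h3, tri_sum a b c⟩
  · exact ⟨fun _ _ _ => 0, fun _ _ _ => rfl, fun _ _ _ => rfl, fun _ _ _ h => absurd rfl h,
      fun _ _ => Finset.sum_const_zero⟩
  · rintro x y - - ⟨s, h1, h2, h3, h4⟩ ⟨t, g1, g2, g3, g4⟩
    refine ⟨fun a b c => s a b c + t a b c, fun a b c => ?_, fun a b c => ?_, fun a b c h => ?_,
      fun a b => ?_⟩
    · exact congrArg₂ (fun p q => p + q) (h1 a b c) (g1 a b c)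
    · exact congrArg₂ (fun p q => p + q) (h2 a b c) (g2 a b c)
    · by_cases h5 : s a b c = 0
      · refine g3 a b c (fun h6 => h ?_)
        change s a b c + t a b c = 0
        rw [h5, h6, add_zero]
      · exact h3 a b c h5
    · rw [Finset.sum_add_distrib, h4, g4]
      rfl
  · rintro r x - ⟨s, h1, h2, h3, h4⟩
    refine ⟨fun a b c => r * s a b c, fun a b c => ?_, fun a b c => ?_, fun a b c h => ?_,
      fun a b => ?_⟩
    · exact congrArg (fun p => r * p) (h1 a b c)
    · exact congrArg (fun p => r * p) (h2 a b c)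
    · exact h3 a b c (right_ne_zero_of_mul h)
    · rw [← Finset.mul_sum, h4]
      rfl

/-- The crossing lemma. -/
theorem crossing [Fintype X] {H : SimpleGraph X} {A : Finset X} (h : Sph H A) {v a b c d x y : X}
    (hva : H.Adj v a) (hvb : H.Adj v b) (hvc : H.Adj v c) (hvd : H.Adj v d)
    (hac : ¬ H.Adj a c) (hac2 : a ≠ c) (hba : H.Adj b a) (hbc : H.Adj b c)
    (hbd : ¬ H.Adj b d) (hbd2 : b ≠ d) (hxv : x ≠ v) (hvx : ¬ H.Adj v x) (hxa : H.Adj x a)
    (hxc : H.Adj x c) (hyv : y ≠ v) (hvy : ¬ H.Adj v y) (hyb : H.Adj y b) (hyd : H.Adj y d) :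
    x = y := by
  classical
  by_contra hxy
  -- the cycle
  set C : X → X → ZMod 2 := E v a + E a v + (E a x + E x a) + (E x c + E c x) +
    (E c v + E v c) with hC
  have hCval : ∀ p q, C p q = e p v * e q a + e p a * e q v + (e p a * e q x + e p x * e q a) +
      (e p x * e q c + e p c * e q x) + (e p c * e q v + e p v * e q c) := by
    intro p q
    rfl
  have hsym : ∀ p q, C p q = C q p := by
    intro p q
    rw [hCval, hCval]
    ring
  have hE : ∀ p q p' q' : X, H.Adj p' q' → e p p' * e q q' ≠ 0 → H.Adj p q := by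
    intro p q p' q' h1 h2
    rw [e_ne (left_ne_zero_of_mul h2), e_ne (right_ne_zero_of_mul h2)]
    exact h1
  have hsup : ∀ p q, C p q ≠ 0 → H.Adj p q := by
    intro p q h1
    by_contra h2
    apply h1
    have key : ∀ p' q', H.Adj p' q' → e p p' * e q q' = 0 := by
      intro p' q' h3
      by_contra h4
      exact h2 (hE p q p' q' h3 h4)
    rw [hCval, key v a hva, key a v hva.symm, key a x hxa.symm, key x a hxa, key x c hxc,
      key c x hxc.symm, key c v hvc.symm, key v c hvc]
    simp
  have hcyc : ∀ p, ∑ q, C p q = 0 := by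
    intro p
    have h1 : ∀ p, ∑ q, C p q = ∑ q, (e p v * e q a + e p a * e q v +
        (e p a * e q x + e p x * e q a) + (e p x * e q c + e p c * e q x) +
        (e p c * e q v + e p v * e q c)) := by
      intro p
      exact Finset.sum_congr rfl fun q _ => hCval p q
    rw [h1]
    simp only [Finset.sum_add_distrib, ← Finset.mul_sum, sum_e, mul_one]
    have h2 : e p v + e p a + (e p a + e p x) + (e p x + e p c) + (e p c + e p v) =
        (e p v + e p v) + (e p a + e p a) + (e p x + e p x) + (e p c + e p c) := by ring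
    rw [h2]
    simp only [CharTwo.add_self_eq_zero, add_zero]
  obtain ⟨s, hs1, hs2, hs3, hs4⟩ := cycle_bounds H h.coh C hsym hsup hcyc
  -- crossing an edge
  have hcross : ∀ u p r t, H.Adj u p → H.Adj u r → H.Adj p r → H.Adj u t → H.Adj p t → r ≠ t →
      s u p r + s u p t = C u p := by
    intro u p r t h1 h2 h3 h4 h5 h6
    rw [← hs4 u p]
    obtain ⟨r', t', h7, -, h8⟩ := h.two u p h1
    have h9 : ∀ z, z ∉ ({r, t} : Finset X) → s u p z = 0 := by
      intro z hz
      by_contra h10
      have h11 := hs3 u p z h10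
      rw [mem_insert, mem_singleton, not_or] at hz
      have h12 := (h8 z).1 ⟨h11.2.2, h11.2.1⟩
      have h13 := (h8 r).1 ⟨h2, h3⟩
      have h14 := (h8 t).1 ⟨h4, h5⟩
      rcases h13 with h13 | h13 <;> rcases h14 with h14 | h14
      · exact h6 (h13.trans h14.symm)
      · rcases h12 with h12 | h12
        · exact hz.1 (h12.trans h13.symm)
        · exact hz.2 (h12.trans h14.symm)
      · rcases h12 with h12 | h12
        · exact hz.2 (h12.trans h14.symm)
        · exact hz.1 (h12.trans h13.symm)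
      · exact h6 (h13.trans h14.symm)
    rw [← Finset.sum_subset (subset_univ ({r, t} : Finset X)) (fun z _ hz => h9 z hz),
      Finset.sum_pair h6]
  have hCoff : ∀ u p, u ≠ v → u ≠ a → u ≠ x → u ≠ c → C u p = 0 := by
    intro u p h1 h2 h3 h4
    rw [hCval]
    simp [e, h1, h2, h3, h4]
  have hconst : ∀ u, u ≠ v → u ≠ a → u ≠ x → u ≠ c →
      ∃ σ : ZMod 2, ∀ p q, H.Adj u p → H.Adj u q → H.Adj p q → s u p q = σ := by
    intro u h1 h2 h3 h4
    refine link_const h.surf s u (fun p q => hs2 u p q) ?_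
    intro p r1 r2 h5 h6 h7 h8 h9
    by_cases h10 : r1 = r2
    · rw [h10]
    · have h11 := hcross u p r1 r2 h5 h6 h7 h8 h9 h10
      rw [hCoff u p h1 h2 h3 h4] at h11
      exact CharTwo.add_eq_zero.1 h11
  have hx_b : b ≠ x := by
    intro h1
    exact hvx (h1 ▸ hvb)
  have hx_d : d ≠ x := by
    intro h1
    exact hvx (h1 ▸ hvd)
  have hya : y ≠ a := by
    intro h1
    exact hvy (h1 ▸ hva)
  have hyc : y ≠ c := by
    intro h1
    exact hvy (h1 ▸ hvc)
  have hda : d ≠ a := by
    intro h1
    exact hbd (h1 ▸ hba)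
  have hdc : d ≠ c := by
    intro h1
    exact hbd (h1 ▸ hbc)
  obtain ⟨σb, hσb⟩ := hconst b hvb.ne.symm hba.ne hx_b hbc.ne
  obtain ⟨σd, hσd⟩ := hconst d hvd.ne.symm hda hx_d hdc
  obtain ⟨σy, hσy⟩ := hconst y hyv hya (fun h1 => hxy h1.symm) hyc
  have hby : σb = σy := by
    obtain ⟨r, t, -, -, h2⟩ := h.two y b hyb
    have h3 := (h2 r).2 (Or.inl rfl)
    rw [← hσy b r hyb h3.1 h3.2, ← hσb y r hyb.symm h3.2 h3.1, hs1]
  have hdy : σd = σy := by
    obtain ⟨r, t, -, -, h2⟩ := h.two y d hyd
    have h3 := (h2 r).2 (Or.inl rfl)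
    rw [← hσy d r hyd h3.1 h3.2, ← hσd y r hyd.symm h3.2 h3.1, hs1]
  have hbd3 : σb = σd := hby.trans hdy.symm
  -- values of the cycle at `v`
  have hCva : C v a = 1 := by
    rw [hCval]
    simp [e, hva.ne, hva.ne.symm, hac2, hac2.symm, hxv, hxv.symm, hxa.ne, hxa.ne.symm,
      hvc.ne, hvc.ne.symm]
  have hCvc : C v c = 1 := by
    rw [hCval]
    simp [e, hva.ne, hva.ne.symm, hac2, hac2.symm, hxv, hxv.symm, hxa.ne, hxa.ne.symm,
      hvc.ne, hvc.ne.symm, hxc.ne, hxc.ne.symm]
  -- the common neighbours of `v` and `b` are `a` and `c`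
  have hb_nb : ∀ z, H.Adj v z → H.Adj b z → z = a ∨ z = c := by
    intro z h1 h2
    obtain ⟨p, q, hpq, -, h3⟩ := h.two v b hvb
    have h4 := (h3 z).1 ⟨h1, h2⟩
    have h5 := (h3 a).1 ⟨hva, hba⟩
    have h6 := (h3 c).1 ⟨hvc, hbc⟩
    rcases h5 with h5 | h5 <;> rcases h6 with h6 | h6
    · exact absurd (h5.trans h6.symm) hac2
    · rcases h4 with h4 | h4
      · exact Or.inl (h4.trans h5.symm)
      · exact Or.inr (h4.trans h6.symm)
    · rcases h4 with h4 | h4
      · exact Or.inr (h4.trans h6.symm)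
      · exact Or.inl (h4.trans h5.symm)
    · exact absurd (h5.trans h6.symm) hac2
  -- the other side of `va` and `vc`
  have hside : ∀ z, H.Adj v z → H.Adj a z → z ≠ b → s v a z = σb + 1 := by
    intro z h1 h2 h3
    have h4 := hcross v a b z hva hvb hba.symm h1 h2 h3.symm
    rw [hCva] at h4
    have h5 : s v a b = σb := by
      rw [hs2, hs1]
      exact hσb v a hvb.symm hba hva
    rw [h5] at h4
    have h6 : s v a z = σb + (σb + s v a z) := by
      rw [← add_assoc, CharTwo.add_self_eq_zero, zero_add]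
    rw [h6, h4]
  have hside2 : ∀ z, H.Adj v z → H.Adj c z → z ≠ b → s v c z = σb + 1 := by
    intro z h1 h2 h3
    have h4 := hcross v c b z hvc hvb hbc.symm h1 h2 h3.symm
    rw [hCvc] at h4
    have h5 : s v c b = σb := by
      rw [hs2, hs1]
      exact hσb v c hvb.symm hbc hvc
    rw [h5] at h4
    have h6 : s v c z = σb + (σb + s v c z) := by
      rw [← add_assoc, CharTwo.add_self_eq_zero, zero_add]
    rw [h6, h4]
  -- propagation around the link of `v`
  have hne1 : σb ≠ σb + 1 := by
    intro h1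
    have h2 : (1 : ZMod 2) = 0 := by
      have h3 : σb + σb = σb + (σb + 1) := by rw [← h1]
      rw [← add_assoc, CharTwo.add_self_eq_zero, zero_add] at h3
      exact h3.symm
    exact absurd h2 (by decide)
  have key := h.lk v (fun z => z ≠ a ∧ z ≠ b ∧ z ≠ c ∧
    ∀ p q, H.Adj z p → H.Adj z q → H.Adj p q → s z p q = σb) ?_ d b hvd hvb
    ⟨hda, hbd2.symm, hdc, ?_⟩
  · exact key.2.1 rfl
  · rintro z z' h1 h2 h3 ⟨h4, h5, h6, h7⟩
    have h8 : s z v z' = σb := h7 v z' h1.symm h3 h2
    have h9 : z' ≠ a := by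
      intro h10
      rw [h10] at h8 h3
      have h11 := hside z h1 h3.symm h5
      apply hne1
      rw [← h11, ← h8, hs1 z v a, hs2 v z a]
    have h10 : z' ≠ c := by
      intro h10
      rw [h10] at h8 h3
      have h11 := hside2 z h1 h3.symm h5
      apply hne1
      rw [← h11, ← h8, hs1 z v c, hs2 v z c]
    have h11 : z' ≠ b := by
      intro h12
      rw [h12] at h3
      rcases hb_nb z h1 h3.symm with h13 | h13
      · exact h4 h13
      · exact h6 h13
    refine ⟨h9, h11, h10, ?_⟩
    obtain ⟨σ, hσ⟩ := hconst z' h2.ne.symm h9 (fun h12 => hvx (h12 ▸ h2)) h10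
    have h12 : σ = σb := by
      rw [← hσ v z h2.symm h3.symm h1, ← h8, hs1 z' v z, hs2 v z' z, hs1 v z z']
    rw [← h12]
    exact hσ
  · rw [hbd3]
    exact hσd

end Pool.Agent.Helper84.FS
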