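import Pool.Agent.Helper84.FS.Dual

/-!
# Flag 2-spheres: an edge in no induced 4-cycle

A flag 2-sphere that is not an octahedron has an edge in no induced 4-cycle.
-/

open Finset

namespace Pool.Agent.Helper84.FS

variable {X : Type}

/-- The edge `va` is in an induced 4-cycle. -/
def Blocked (H : SimpleGraph X) (v a : X) : Prop :=
  ∃ c x, H.Adj v c ∧ ¬ H.Adj a c ∧ a ≠ c ∧ H.Adj x a ∧ H.Adj x c ∧ ¬ H.Adj v x ∧ x ≠ v

theorem Surf.third {H : SimpleGraph X} (h : Surf H) {a b r t z : X} (hab : H.Adj a b)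
    (hr : H.Adj a r) (hr' : H.Adj b r) (ht : H.Adj a t) (ht' : H.Adj b t) (hrt : r ≠ t)
    (hz : H.Adj a z) (hz' : H.Adj b z) : z = r ∨ z = t := by
  obtain ⟨p, q, -, -, h3⟩ := h.two a b hab
  have h4 := (h3 z).1 ⟨hz, hz'⟩
  have h5 := (h3 r).1 ⟨hr, hr'⟩
  have h6 := (h3 t).1 ⟨ht, ht'⟩
  rcases h5 with h5 | h5 <;> rcases h6 with h6 | h6
  · exact absurd (h5.trans h6.symm) hrt
  · rcases h4 with h4 | h4
    · exact Or.inl (h4.trans h5.symm)
    · exact Or.inr (h4.trans h6.symm)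
  · rcases h4 with h4 | h4
    · exact Or.inr (h4.trans h6.symm)
    · exact Or.inl (h4.trans h5.symm)
  · exact absurd (h5.trans h6.symm) hrt

theorem exists_nb [Fintype X] {H : SimpleGraph X} {A : Finset X} (h : Sph H A) {v : X}
    (hv : v ∈ A) : ∃ a, H.Adj v a := by
  by_contra h1
  push Not at h1
  have h2 : A = {v} := by
    refine Finset.eq_singleton_iff_unique_mem.2 ⟨hv, fun b hb => ?_⟩
    refine h.con (fun z => z = v) ?_ v hv b hb rfl
    intro a b hab ha
    rw [ha] at hab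
    exact absurd hab (h1 b)
  have h3 := h.deg
  have h4 : nb H v = ∅ := by
    rw [Finset.eq_empty_iff_forall_notMem]
    intro x hx
    exact h1 x (mem_nb.1 hx)
  rw [h2, Finset.sum_singleton, h4] at h3
  simp at h3

theorem common_nb [Fintype X] {H : SimpleGraph X} (h : Surf H) {v a c : X}
    (h5 : (nb H v).card ≤ 5) (ha : H.Adj v a) (hc : H.Adj v c) (hac : ¬ H.Adj a c)
    (hac2 : a ≠ c) : ∃ b, H.Adj v b ∧ H.Adj b a ∧ H.Adj b c := by
  classical
  by_contra h0
  push Not at h0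
  obtain ⟨p, q, hpq, -, h1⟩ := h.two v a ha
  obtain ⟨p', q', hpq', -, h2⟩ := h.two v c hc
  have hp := (h1 p).2 (Or.inl rfl)
  have hq := (h1 q).2 (Or.inr rfl)
  have hp' := (h2 p').2 (Or.inl rfl)
  have hq' := (h2 q').2 (Or.inr rfl)
  have k1 : p ≠ p' := fun e1 => h0 p hp.1 hp.2.symm (e1 ▸ hp'.2.symm)
  have k2 : p ≠ q' := fun e1 => h0 p hp.1 hp.2.symm (e1 ▸ hq'.2.symm)
  have k3 : q ≠ p' := fun e1 => h0 q hq.1 hq.2.symm (e1 ▸ hp'.2.symm)
  have k4 : q ≠ q' := fun e1 => h0 q hq.1 hq.2.symm (e1 ▸ hq'.2.symm)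
  have k5 : a ≠ p' := fun e1 => hac (e1 ▸ hp'.2.symm)
  have k6 : a ≠ q' := fun e1 => hac (e1 ▸ hq'.2.symm)
  have k7 : c ≠ p := fun e1 => hac (e1 ▸ hp.2)
  have k8 : c ≠ q := fun e1 => hac (e1 ▸ hq.2)
  have hsub : ({a, c, p, q, p', q'} : Finset X) ⊆ nb H v := by
    intro z hz
    simp only [mem_insert, mem_singleton] at hz
    rw [mem_nb]
    rcases hz with hz | hz | hz | hz | hz | hz
    · exact hz ▸ ha
    · exact hz ▸ hc
    · exact hz ▸ hp.1
    · exact hz ▸ hq.1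
    · exact hz ▸ hp'.1
    · exact hz ▸ hq'.1
  have h3 := Finset.card_le_card hsub
  have h4 : ({a, c, p, q, p', q'} : Finset X).card = 6 := by
    rw [card_insert_of_notMem, card_insert_of_notMem, card_insert_of_notMem,
      card_insert_of_notMem, card_pair hpq']
    · simp [k3, k4]
    · simp [hpq, k1, k2]
    · simp [k7, k8, hp'.2.ne, hq'.2.ne]
    · simp [hac2, hp.2.ne, hq.2.ne, k5, k6]
  omega

theorem nb_of_blocked [Fintype X] {H : SimpleGraph X} {A : Finset X} (h : Sph H A)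
    {v a b c x : X} (hva : H.Adj v a) (hvb : H.Adj v b) (hvc : H.Adj v c)
    (hac : ¬ H.Adj a c) (hac2 : a ≠ c) (hba : H.Adj b a) (hbc : H.Adj b c)
    (hxv : x ≠ v) (hvx : ¬ H.Adj v x) (hxa : H.Adj x a)
    (hxc : H.Adj x c) (hB : Blocked H v b) :
    ∀ z, H.Adj b z ↔ z = v ∨ z = a ∨ z = c ∨ z = x := by
  obtain ⟨d, y, hvd, hbd, hbd2, hyb, hyd, hvy, hyv⟩ := hB
  have hxy : x = y := crossing h hva hvb hvc hvd hac hac2 hba hbc hbd hbd2 hxv hvx hxa hxc hyv
    hvy hyb hyd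
  rw [← hxy] at hyb
  have h1 := h.lk b (fun z => z = v ∨ z = a ∨ z = c ∨ z = x) ?_ v
  · intro z
    constructor
    · intro hz
      exact h1 z hvb.symm hz (Or.inl rfl)
    · rintro (hz | hz | hz | hz)
      · exact hz ▸ hvb.symm
      · exact hz ▸ hba
      · exact hz ▸ hbc
      · exact hz ▸ hyb.symm
  · intro z z' hz hz' hzz hP
    rcases hP with hP | hP | hP | hP
    · rw [hP] at hzz
      rcases h.surf.third hvb.symm hba hva hbc hvc hac2 hz' hzz with h2 | h2
      · exact Or.inr (Or.inl h2)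
      · exact Or.inr (Or.inr (Or.inl h2))
    · rw [hP] at hzz
      rcases h.surf.third hba hvb.symm hva.symm hyb.symm hxa.symm hxv.symm hz' hzz with h2 | h2
      · exact Or.inl h2
      · exact Or.inr (Or.inr (Or.inr h2))
    · rw [hP] at hzz
      rcases h.surf.third hbc hvb.symm hvc.symm hyb.symm hxc.symm hxv.symm hz' hzz with h2 | h2
      · exact Or.inl h2
      · exact Or.inr (Or.inr (Or.inr h2))
    · rw [hP] at hzz
      rcases h.surf.third hyb.symm hba hxa hbc hxc hac2 hz' hzz with h2 | h2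
      · exact Or.inr (Or.inl h2)
      · exact Or.inr (Or.inr (Or.inl h2))

/-- The graph is the octahedron with the pairs of opposite vertices `u, x`, `p, r` and `q, s`. -/
structure Oct (H : SimpleGraph X) (A : Finset X) (u x p r q s : X) : Prop where
  ux : u ≠ x
  pr : p ≠ r
  qs : q ≠ s
  nux : ¬ H.Adj u x
  npr : ¬ H.Adj p r
  nqs : ¬ H.Adj q s
  up : H.Adj u p
  uq : H.Adj u q
  ur : H.Adj u r
  us : H.Adj u s
  xp : H.Adj x p
  xq : H.Adj x q
  xr : H.Adj x r
  xs : H.Adj x s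
  pq : H.Adj p q
  qr : H.Adj q r
  rs : H.Adj r s
  sp : H.Adj s p
  mem : ∀ z, z ∈ A ↔ z = u ∨ z = x ∨ z = p ∨ z = r ∨ z = q ∨ z = s

theorem oct_of_blocked [Fintype X] {H : SimpleGraph X} {A : Finset X} (h : Sph H A)
    (hB : ∀ v w, H.Adj v w → Blocked H v w) {u p q r s : X}
    (hN : ∀ z, H.Adj u z ↔ z = p ∨ z = q ∨ z = r ∨ z = s) (hpq : H.Adj p q) (hqr : H.Adj q r)
    (hrs : H.Adj r s) (hsp : H.Adj s p) (hpr : ¬ H.Adj p r) (hqs : ¬ H.Adj q s) (hpr2 : p ≠ r)
    (hqs2 : q ≠ s) : ∃ x, Oct H A u x p r q s := by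
  have hup : H.Adj u p := (hN p).2 (Or.inl rfl)
  have huq : H.Adj u q := (hN q).2 (Or.inr (Or.inl rfl))
  have hur : H.Adj u r := (hN r).2 (Or.inr (Or.inr (Or.inl rfl)))
  have hus : H.Adj u s := (hN s).2 (Or.inr (Or.inr (Or.inr rfl)))
  obtain ⟨c, x, hc, hpc, hpc2, hxp, hxc, hux, hxu⟩ := hB u p hup
  have hcr : c = r := by
    rcases (hN c).1 hc with h1 | h1 | h1 | h1
    · exact absurd h1.symm hpc2
    · exact absurd (h1 ▸ hpq) hpc
    · exact h1
    · exact absurd (h1 ▸ hsp.symm) hpc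
  rw [hcr] at hxc
  have hNq := nb_of_blocked h hup huq hur hpr hpr2 hpq.symm hqr hxu hux hxp hxc (hB u q huq)
  have hNs := nb_of_blocked h hup hus hur hpr hpr2 hsp hrs.symm hxu hux hxp hxc (hB u s hus)
  have hxq : H.Adj x q := ((hNq x).2 (Or.inr (Or.inr (Or.inr rfl)))).symm
  have hxs : H.Adj x s := ((hNs x).2 (Or.inr (Or.inr (Or.inr rfl)))).symm
  have hNp := nb_of_blocked h huq hup hus hqs hqs2 hpq hsp.symm hxu hux hxq hxs (hB u p hup)
  have hNr := nb_of_blocked h huq hur hus hqs hqs2 hqr.symm hrs hxu hux hxq hxs (hB u r hur)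
  have hNx : ∀ z, H.Adj x z → z = p ∨ z = q ∨ z = r ∨ z = s := by
    intro z hz
    refine h.lk x (fun z => z = p ∨ z = q ∨ z = r ∨ z = s) ?_ p z hxp hz (Or.inl rfl)
    intro a b ha hb hab hP
    have hbu : b ≠ u := by
      intro h1
      exact hux (h1 ▸ hb.symm)
    have hbx : b ≠ x := hb.ne.symm
    rcases hP with hP | hP | hP | hP
    · rw [hP] at hab
      rcases (hNp b).1 hab with h1 | h1 | h1 | h1
      · exact absurd h1 hbu
      · exact Or.inr (Or.inl h1)
      · exact Or.inr (Or.inr (Or.inr h1))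
      · exact absurd h1 hbx
    · rw [hP] at hab
      rcases (hNq b).1 hab with h1 | h1 | h1 | h1
      · exact absurd h1 hbu
      · exact Or.inl h1
      · exact Or.inr (Or.inr (Or.inl h1))
      · exact absurd h1 hbx
    · rw [hP] at hab
      rcases (hNr b).1 hab with h1 | h1 | h1 | h1
      · exact absurd h1 hbu
      · exact Or.inr (Or.inl h1)
      · exact Or.inr (Or.inr (Or.inr h1))
      · exact absurd h1 hbx
    · rw [hP] at hab
      rcases (hNs b).1 hab with h1 | h1 | h1 | h1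
      · exact absurd h1 hbu
      · exact Or.inl h1
      · exact Or.inr (Or.inr (Or.inl h1))
      · exact absurd h1 hbx
  refine ⟨x, hxu.symm, hpr2, hqs2, hux, hpr, hqs, hup, huq, hur, hus, hxp, hxq, hxc, hxs, hpq,
    hqr, hrs, hsp, fun z => ?_⟩
  constructor
  · intro hz
    refine h.con (fun z => z = u ∨ z = x ∨ z = p ∨ z = r ∨ z = q ∨ z = s) ?_ u
      (h.sup u p hup) z hz (Or.inl rfl)
    intro a b hab hP
    rcases hP with hP | hP | hP | hP | hP | hP
    · rw [hP] at hab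
      rcases (hN b).1 hab with h1 | h1 | h1 | h1 <;> simp [h1]
    · rw [hP] at hab
      rcases hNx b hab with h1 | h1 | h1 | h1 <;> simp [h1]
    · rw [hP] at hab
      rcases (hNp b).1 hab with h1 | h1 | h1 | h1 <;> simp [h1]
    · rw [hP] at hab
      rcases (hNr b).1 hab with h1 | h1 | h1 | h1 <;> simp [h1]
    · rw [hP] at hab
      rcases (hNq b).1 hab with h1 | h1 | h1 | h1 <;> simp [h1]
    · rw [hP] at hab
      rcases (hNs b).1 hab with h1 | h1 | h1 | h1 <;> simp [h1]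
  · rintro (h1 | h1 | h1 | h1 | h1 | h1)
    · exact h1 ▸ h.sup u p hup
    · exact h1 ▸ h.sup x p hxp
    · exact h1 ▸ h.sup p u hup.symm
    · exact h1 ▸ h.sup r u hur.symm
    · exact h1 ▸ h.sup q u huq.symm
    · exact h1 ▸ h.sup s u hus.symm

/-- A flag 2-sphere is an octahedron or has an edge in no induced 4-cycle. -/
theorem exists_edge [Fintype X] {H : SimpleGraph X} {A : Finset X} (h : Sph H A) :
    (∃ v w, H.Adj v w ∧ ¬ Blocked H v w) ∨ ∃ u x p r q s, Oct H A u x p r q s := by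
  by_cases h0 : ∃ v w, H.Adj v w ∧ ¬ Blocked H v w
  · exact Or.inl h0
  · right
    have hB : ∀ v w, H.Adj v w → Blocked H v w := by
      intro v w hvw
      by_contra h1
      exact h0 ⟨v, w, hvw, h1⟩
    -- a vertex of degree at most five
    have h1 : ∃ v ∈ A, (nb H v).card ≤ 5 := by
      by_contra h2
      push Not at h2
      have h3 : ∑ _u ∈ A, 6 ≤ ∑ u ∈ A, (nb H u).card :=
        Finset.sum_le_sum fun u hu => h2 u hu
      have h4 := h.deg
      rw [Finset.sum_const, smul_eq_mul] at h3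
      omega
    obtain ⟨v, hv, h5⟩ := h1
    obtain ⟨a, hva⟩ := exists_nb h hv
    obtain ⟨c, x, hvc, hac, hac2, hxa, hxc, hvx, hxv⟩ := hB v a hva
    obtain ⟨b, hvb, hba, hbc⟩ := common_nb h.surf h5 hva hvc hac hac2
    have hNb := nb_of_blocked h hva hvb hvc hac hac2 hba hbc hxv hvx hxa hxc (hB v b hvb)
    have hNb2 : ∀ z, H.Adj b z ↔ z = v ∨ z = a ∨ z = x ∨ z = c := by
      intro z
      rw [hNb z]
      tauto
    obtain ⟨y, hy⟩ := oct_of_blocked h hB hNb2 hva hxa.symm hxc hvc.symm hvx hac hxv.symm hac2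
    exact ⟨b, y, v, x, a, c, hy⟩

end Pool.Agent.Helper84.FS
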