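import Pool.Agent.Helper84.FS.Contract

/-!
# Flag 2-spheres: the Euler characteristic

A closed connected surface with Euler characteristic two satisfies `Sph`.
-/

open Finset

namespace Pool.Agent.Helper84.FS

variable {X : Type}

open scoped Classical in
/-- The cliques of `H` in `A` with `j` elements. -/
noncomputable def Fa (H : SimpleGraph X) (A : Finset X) (j : ℕ) : Finset (Finset X) :=
  A.powerset.filter (fun τ => H.IsClique (τ : Set X) ∧ τ.card = j)

theorem mem_Fa {H : SimpleGraph X} {A : Finset X} {j : ℕ} {τ : Finset X} :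
    τ ∈ Fa H A j ↔ τ ⊆ A ∧ H.IsClique (τ : Set X) ∧ τ.card = j := by
  simp [Fa]

theorem mem_Fa_two [DecidableEq X] {H : SimpleGraph X} {A : Finset X}
    (hsup : ∀ a b, H.Adj a b → a ∈ A) {τ : Finset X} :
    τ ∈ Fa H A 2 ↔ ∃ a b, H.Adj a b ∧ τ = {a, b} := by
  rw [mem_Fa]
  constructor
  · rintro ⟨h1, h2, h3⟩
    obtain ⟨a, b, hab, h4⟩ := Finset.card_eq_two.1 h3
    refine ⟨a, b, ?_, h4⟩
    rw [h4] at h2
    exact h2 (by simp) (by simp) hab
  · rintro ⟨a, b, h1, h2⟩
    rw [h2]
    refine ⟨?_, ?_, card_pair h1.ne⟩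
    · intro z hz
      rw [mem_insert, mem_singleton] at hz
      rcases hz with hz | hz
      · exact hz ▸ hsup a b h1
      · exact hz ▸ hsup b a h1.symm
    · intro x hx y hy hxy
      simp only [coe_insert, coe_singleton, Set.mem_insert_iff, Set.mem_singleton_iff] at hx hy
      rcases hx with hx | hx <;> rcases hy with hy | hy
      · exact absurd (hx.trans hy.symm) hxy
      · rw [hx, hy]
        exact h1
      · rw [hx, hy]
        exact h1.symm
      · exact absurd (hx.trans hy.symm) hxy

theorem mem_Fa_three [DecidableEq X] {H : SimpleGraph X} {A : Finset X}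
    (hsup : ∀ a b, H.Adj a b → a ∈ A) {τ : Finset X} :
    τ ∈ Fa H A 3 ↔ ∃ a b c, H.Adj a b ∧ H.Adj b c ∧ H.Adj a c ∧ τ = {a, b, c} := by
  rw [mem_Fa]
  constructor
  · rintro ⟨h1, h2, h3⟩
    obtain ⟨a, b, c, hab, hac, hbc, h4⟩ := Finset.card_eq_three.1 h3
    rw [h4] at h2
    exact ⟨a, b, c, h2 (by simp) (by simp) hab, h2 (by simp) (by simp) hbc,
      h2 (by simp) (by simp) hac, h4⟩
  · rintro ⟨a, b, c, h1, h2, h3, h4⟩
    rw [h4]
    refine ⟨?_, ?_, Finset.card_eq_three.2 ⟨a, b, c, h1.ne, h3.ne, h2.ne, rfl⟩⟩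
    · intro z hz
      rw [mem_insert, mem_insert, mem_singleton] at hz
      rcases hz with hz | hz | hz
      · exact hz ▸ hsup a b h1
      · exact hz ▸ hsup b c h2
      · exact hz ▸ hsup c b h2.symm
    · intro x hx y hy hxy
      simp only [coe_insert, coe_singleton, Set.mem_insert_iff, Set.mem_singleton_iff] at hx hy
      rcases hx with hx | hx | hx <;> rcases hy with hy | hy | hy <;> rw [hx, hy] <;>
        first
          | exact h1
          | exact h2
          | exact h3
          | exact h1.symm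
          | exact h2.symm
          | exact h3.symm
          | exact absurd (hx.trans hy.symm) hxy

section counting

variable [Fintype X] [DecidableEq X] {H : SimpleGraph X} {A : Finset X}

theorem card_edges_at (hsup : ∀ a b, H.Adj a b → a ∈ A) (a : X) :
    ((Fa H A 2).filter (fun e => a ∈ e)).card = (nb H a).card := by
  symm
  refine Finset.card_bij (fun b _ => ({a, b} : Finset X)) ?_ ?_ ?_
  · intro b hb
    rw [mem_filter, mem_Fa_two hsup]
    exact ⟨⟨a, b, mem_nb.1 hb, rfl⟩, mem_insert_self a _⟩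
  · intro b hb c hc h1
    have h2 : b ∈ ({a, c} : Finset X) := by
      rw [← h1]
      simp
    rw [mem_insert, mem_singleton] at h2
    rcases h2 with h2 | h2
    · exact absurd h2.symm (mem_nb.1 hb).ne
    · exact h2
  · intro e he
    rw [mem_filter, mem_Fa_two hsup] at he
    obtain ⟨⟨b, c, h1, h2⟩, h3⟩ := he
    rw [h2, mem_insert, mem_singleton] at h3
    rcases h3 with h3 | h3
    · exact ⟨c, mem_nb.2 (h3 ▸ h1), by rw [h2, h3]⟩
    · exact ⟨b, mem_nb.2 (h3 ▸ h1.symm), by rw [h2, h3, Finset.pair_comm]⟩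

theorem sum_deg (hsup : ∀ a b, H.Adj a b → a ∈ A) :
    ∑ u ∈ A, (nb H u).card = 2 * (Fa H A 2).card := by
  have h1 := Finset.sum_card_bipartiteAbove_eq_sum_card_bipartiteBelow
    (fun (a : X) (e : Finset X) => a ∈ e) (s := A) (t := Fa H A 2)
  unfold Finset.bipartiteAbove Finset.bipartiteBelow at h1
  have h2 : ∀ u ∈ A, (nb H u).card = ((Fa H A 2).filter (fun e => u ∈ e)).card :=
    fun u _ => (card_edges_at hsup u).symm
  rw [Finset.sum_congr rfl h2, h1]
  have h3 : ∀ e ∈ Fa H A 2, (A.filter (fun a => a ∈ e)).card = 2 := by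
    intro e he
    rw [mem_Fa] at he
    have h4 : A.filter (fun a => a ∈ e) = e := by
      ext x
      rw [mem_filter]
      exact ⟨fun h => h.2, fun h => ⟨he.1 h, h⟩⟩
    rw [h4]
    exact he.2.2
  rw [Finset.sum_congr rfl h3, Finset.sum_const, smul_eq_mul, mul_comm]

theorem card_tri_at (h : Surf H) (hsup : ∀ a b, H.Adj a b → a ∈ A) {e : Finset X}
    (he : e ∈ Fa H A 2) : ((Fa H A 3).filter (fun t => e ⊆ t)).card = 2 := by
  obtain ⟨a, b, hab, h1⟩ := (mem_Fa_two hsup).1 he
  obtain ⟨p, q, hpq, -, h2⟩ := h.two a b hab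
  have hp := (h2 p).2 (Or.inl rfl)
  have hq := (h2 q).2 (Or.inr rfl)
  have h3 : (Fa H A 3).filter (fun t => e ⊆ t) = {{a, b, p}, {a, b, q}} := by
    ext t
    rw [mem_filter, mem_Fa_three hsup, mem_insert, mem_singleton]
    constructor
    · rintro ⟨⟨x, y, z, k1, k2, k3, k4⟩, k5⟩
      rw [h1] at k5
      have ha : a ∈ t := k5 (by simp)
      have hb : b ∈ t := k5 (by simp)
      have hcard : t.card = 3 := by
        rw [k4]
        exact Finset.card_eq_three.2 ⟨x, y, z, k1.ne, k3.ne, k2.ne, rfl⟩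
      have hcl : H.IsClique (t : Set X) := by
        have := (mem_Fa_three hsup (A := A)).2 ⟨x, y, z, k1, k2, k3, k4⟩
        exact (mem_Fa.1 this).2.1
      have h4 : ((t.erase a).erase b).card = 1 := by
        rw [Finset.card_erase_of_mem (mem_erase.2 ⟨hab.ne.symm, hb⟩),
          Finset.card_erase_of_mem ha, hcard]
      obtain ⟨c, hc⟩ := Finset.card_eq_one.1 h4
      have hc2 : c ∈ (t.erase a).erase b := by
        rw [hc]
        exact mem_singleton_self c
      rw [mem_erase, mem_erase] at hc2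
      have ht : t = {a, b, c} := by
        rw [← hc, Finset.insert_erase (mem_erase.2 ⟨hab.ne.symm, hb⟩), Finset.insert_erase ha]
      have h5 := (h2 c).1 ⟨hcl (by exact_mod_cast ha) (by exact_mod_cast hc2.2.2) hc2.2.1.symm,
        hcl (by exact_mod_cast hb) (by exact_mod_cast hc2.2.2) hc2.1.symm⟩
      rcases h5 with h5 | h5
      · left
        rw [ht, h5]
      · right
        rw [ht, h5]
    · rintro (k | k)
      · rw [k, h1]
        refine ⟨⟨a, b, p, hab, hp.2, hp.1, rfl⟩, ?_⟩
        intro z hz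
        rw [mem_insert, mem_singleton] at hz
        rcases hz with hz | hz <;> simp [hz]
      · rw [k, h1]
        refine ⟨⟨a, b, q, hab, hq.2, hq.1, rfl⟩, ?_⟩
        intro z hz
        rw [mem_insert, mem_singleton] at hz
        rcases hz with hz | hz <;> simp [hz]
  rw [h3, card_pair]
  intro h4
  have h5 : p ∈ ({a, b, q} : Finset X) := by
    rw [← h4]
    simp
  rw [mem_insert, mem_insert, mem_singleton] at h5
  rcases h5 with h5 | h5 | h5
  · exact hp.1.ne h5.symm
  · exact hp.2.ne h5.symm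
  · exact hpq h5

theorem sum_tri (h : Surf H) (hsup : ∀ a b, H.Adj a b → a ∈ A) :
    2 * (Fa H A 2).card = 3 * (Fa H A 3).card := by
  have h1 := Finset.sum_card_bipartiteAbove_eq_sum_card_bipartiteBelow
    (fun (e t : Finset X) => e ⊆ t) (s := Fa H A 2) (t := Fa H A 3)
  unfold Finset.bipartiteAbove Finset.bipartiteBelow at h1
  have h2 : ∀ e ∈ Fa H A 2, ((Fa H A 3).filter (fun t => e ⊆ t)).card = 2 :=
    fun e he => card_tri_at h hsup he
  have h3 : ∀ t ∈ Fa H A 3, ((Fa H A 2).filter (fun e => e ⊆ t)).card = 3 := by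
    intro t ht
    rw [mem_Fa] at ht
    have h4 : (Fa H A 2).filter (fun e => e ⊆ t) = t.powersetCard 2 := by
      ext e
      rw [mem_filter, mem_Fa, mem_powersetCard]
      constructor
      · rintro ⟨⟨-, -, k1⟩, k2⟩
        exact ⟨k2, k1⟩
      · rintro ⟨k1, k2⟩
        exact ⟨⟨k1.trans ht.1, ht.2.1.subset (by exact_mod_cast k1), k2⟩, k1⟩
    rw [h4, card_powersetCard, ht.2.2]
    rfl
  rw [Finset.sum_congr rfl h2, Finset.sum_congr rfl h3, Finset.sum_const, Finset.sum_const,
    smul_eq_mul, smul_eq_mul] at h1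
  omega

end counting

/-- The sum of a function that is zero outside three points. -/
theorem sum_three {ι : Type} [Fintype ι] (f : ι → ZMod 2) (a b c : ι) (hab : a ≠ b)
    (hac : a ≠ c) (hbc : b ≠ c) (h : ∀ x, x ≠ a → x ≠ b → x ≠ c → f x = 0) :
    ∑ x, f x = f a + f b + f c := by
  classical
  rw [← Finset.sum_subset (Finset.subset_univ ({a, b, c} : Finset ι))]
  · rw [Finset.sum_insert (by simp [hab, hac]), Finset.sum_pair hbc, add_assoc]
  · intro x _ hx
    simp only [mem_insert, mem_singleton, not_or] at hx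
    exact h x hx.1 hx.2.1 hx.2.2

theorem finrank_le_one {ι : Type} [Fintype ι] (W : Submodule (ZMod 2) (ι → ZMod 2))
    (h : ∀ f ∈ W, ∀ i j, f i = f j) : Module.finrank (ZMod 2) W ≤ 1 := by
  have h1 : W ≤ Submodule.span (ZMod 2) {(fun _ => 1 : ι → ZMod 2)} := by
    intro f hf
    rw [Submodule.mem_span_singleton]
    by_cases h2 : Nonempty ι
    · obtain ⟨i⟩ := h2
      refine ⟨f i, ?_⟩
      funext j
      simp only [Pi.smul_apply, smul_eq_mul, mul_one]
      exact h f hf i j
    · rw [not_nonempty_iff] at h2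
      refine ⟨0, ?_⟩
      funext j
      exact h2.elim j
  refine (Submodule.finrank_mono h1).trans ?_
  refine (finrank_span_le_card _).trans ?_
  simp

section rank

variable [Fintype X] [DecidableEq X] {H : SimpleGraph X} {A : Finset X}

/-- The incidence matrix of edges and vertices. -/
def B1 (H : SimpleGraph X) (A : Finset X) : Matrix (Fa H A 2) A (ZMod 2) :=
  fun e a => if (a : X) ∈ (e : Finset X) then 1 else 0

/-- The incidence matrix of triangles and edges. -/
def B2 (H : SimpleGraph X) (A : Finset X) : Matrix (Fa H A 3) (Fa H A 2) (ZMod 2) :=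
  fun t e => if (e : Finset X) ⊆ (t : Finset X) then 1 else 0

theorem B1_mul (g : A → ZMod 2) (e : Fa H A 2) (a b : A) (hab : a ≠ b)
    (he : (e : Finset X) = {(a : X), (b : X)}) : (B1 H A).mulVec g e = g a + g b := by
  unfold Matrix.mulVec dotProduct B1
  have ha : (a : X) ∈ (e : Finset X) := by rw [he]; simp
  have hb : (b : X) ∈ (e : Finset X) := by rw [he]; simp
  rw [Fintype.sum_eq_add a b hab]
  · simp only [if_pos ha, if_pos hb, one_mul]
  · rintro x ⟨hxa, hxb⟩
    have hx : ¬ (x : X) ∈ (e : Finset X) := by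
      rw [he, mem_insert, mem_singleton]
      rintro (h1 | h1)
      · exact hxa (Subtype.ext h1)
      · exact hxb (Subtype.ext h1)
    simp only [if_neg hx, zero_mul]

theorem B2_mul (f : Fa H A 2 → ZMod 2) (t : Fa H A 3) {a b c : X} (hab : a ≠ b) (hac : a ≠ c)
    (hbc : b ≠ c) (ht : (t : Finset X) = {a, b, c}) (e1 e2 e3 : Fa H A 2)
    (h1 : (e1 : Finset X) = {a, b}) (h2 : (e2 : Finset X) = {b, c})
    (h3 : (e3 : Finset X) = {a, c}) : (B2 H A).mulVec f t = f e1 + f e2 + f e3 := by
  unfold Matrix.mulVec dotProduct B2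
  have k1 : (e1 : Finset X) ⊆ t := by
    rw [h1, ht]
    intro z
    simp only [mem_insert, mem_singleton]
    tauto
  have k2 : (e2 : Finset X) ⊆ t := by
    rw [h2, ht]
    intro z
    simp only [mem_insert, mem_singleton]
    tauto
  have k3 : (e3 : Finset X) ⊆ t := by
    rw [h3, ht]
    intro z
    simp only [mem_insert, mem_singleton]
    tauto
  have m1 : e1 ≠ e2 := by
    intro h
    have h4 : a ∈ ({b, c} : Finset X) := by
      rw [← h2, ← h, h1]
      simp
    simp [hab, hac] at h4
  have m2 : e1 ≠ e3 := by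
    intro h
    have h4 : b ∈ ({a, c} : Finset X) := by
      rw [← h3, ← h, h1]
      simp
    simp [hab.symm, hbc] at h4
  have m3 : e2 ≠ e3 := by
    intro h
    have h4 : b ∈ ({a, c} : Finset X) := by
      rw [← h3, ← h, h2]
      simp
    simp [hab.symm, hbc] at h4
  rw [sum_three _ e1 e2 e3 m1 m2 m3]
  · simp only [if_pos k1, if_pos k2, if_pos k3, one_mul]
  · intro e n1 n2 n3
    suffices hx : ¬ (e : Finset X) ⊆ (t : Finset X) by simp only [if_neg hx, zero_mul]
    intro h4
    rw [ht] at h4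
    have h5 := (mem_Fa.1 e.2).2.2
    obtain ⟨x, y, hxy, h6⟩ := Finset.card_eq_two.1 h5
    have hx : x ∈ ({a, b, c} : Finset X) := h4 (by rw [h6]; simp)
    have hy : y ∈ ({a, b, c} : Finset X) := h4 (by rw [h6]; simp)
    simp only [mem_insert, mem_singleton] at hx hy
    have j1 : (e : Finset X) ≠ {a, b} := fun h => n1 (Subtype.ext (h.trans h1.symm))
    have j2 : (e : Finset X) ≠ {b, c} := fun h => n2 (Subtype.ext (h.trans h2.symm))
    have j3 : (e : Finset X) ≠ {a, c} := fun h => n3 (Subtype.ext (h.trans h3.symm))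
    rcases hx with hx | hx | hx <;> rcases hy with hy | hy | hy <;> rw [hx, hy] at h6 <;>
      first
        | exact hxy (hx.trans hy.symm)
        | exact j1 h6
        | exact j2 h6
        | exact j3 h6
        | exact j1 (h6.trans (Finset.pair_comm _ _))
        | exact j2 (h6.trans (Finset.pair_comm _ _))
        | exact j3 (h6.trans (Finset.pair_comm _ _))

theorem B2T_mul (h : Surf H) (hsup : ∀ a b, H.Adj a b → a ∈ A) (s : Fa H A 3 → ZMod 2)
    (e : Fa H A 2) {a b p q : X} (he : (e : Finset X) = {a, b})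
    (hp : H.Adj a p) (hp' : H.Adj b p) (hq : H.Adj a q) (hq' : H.Adj b q) (hpq : p ≠ q)
    (t1 t2 : Fa H A 3) (h1 : (t1 : Finset X) = {a, b, p}) (h2 : (t2 : Finset X) = {a, b, q}) :
    (B2 H A).transpose.mulVec s e = s t1 + s t2 := by
  unfold Matrix.mulVec dotProduct Matrix.transpose B2
  simp only [Matrix.of_apply]
  have hne : t1 ≠ t2 := by
    intro h3
    have h5 : p ∈ ({a, b, q} : Finset X) := by
      rw [← h2, ← h3, h1]
      simp
    rw [mem_insert, mem_insert, mem_singleton] at h5
    rcases h5 with h5 | h5 | h5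
    · exact hp.ne h5.symm
    · exact hp'.ne h5.symm
    · exact hpq h5
  have k1 : (e : Finset X) ⊆ t1 := by
    rw [he, h1]
    intro z
    simp only [mem_insert, mem_singleton]
    tauto
  have k2 : (e : Finset X) ⊆ t2 := by
    rw [he, h2]
    intro z
    simp only [mem_insert, mem_singleton]
    tauto
  rw [Fintype.sum_eq_add t1 t2 hne]
  · simp only [if_pos k1, if_pos k2, one_mul]
  · rintro t ⟨n1, n2⟩
    suffices hx : ¬ (e : Finset X) ⊆ (t : Finset X) by simp only [if_neg hx, zero_mul]
    intro h3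
    have h4 := card_tri_at h hsup e.2
    have h5 : ({(t : Finset X), (t1 : Finset X), (t2 : Finset X)} : Finset (Finset X)) ⊆
        (Fa H A 3).filter (fun t => (e : Finset X) ⊆ t) := by
      intro z hz
      rw [mem_insert, mem_insert, mem_singleton] at hz
      rw [mem_filter]
      rcases hz with hz | hz | hz
      · rw [hz]
        exact ⟨t.2, h3⟩
      · rw [hz]
        exact ⟨t1.2, k1⟩
      · rw [hz]
        exact ⟨t2.2, k2⟩
    have h6 := Finset.card_le_card h5
    have h7 : ({(t : Finset X), (t1 : Finset X), (t2 : Finset X)} : Finset (Finset X)).card = 3 :=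
      Finset.card_eq_three.2 ⟨_, _, _, fun g => n1 (Subtype.ext g), fun g => n2 (Subtype.ext g),
        fun g => hne (Subtype.ext g), rfl⟩
    omega

end rank

end Pool.Agent.Helper84.FS
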