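import Pool.Agent.Helper84.FS.Euler

/-!
# Flag 2-spheres: vanishing of the first cohomology from the Euler characteristic
-/

open Finset

namespace Pool.Agent.Helper84.FS

variable {X : Type} [Fintype X] [DecidableEq X] {H : SimpleGraph X} {A : Finset X}

theorem ker_B1 (hsup : ∀ a b, H.Adj a b → a ∈ A)
    (hcon : ∀ P : X → Prop, (∀ a b, H.Adj a b → P a → P b) → ∀ a ∈ A, ∀ b ∈ A, P a → P b) :
    Module.finrank (ZMod 2) (LinearMap.ker (B1 H A).mulVecLin) ≤ 1 := by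
  refine finrank_le_one _ ?_
  intro f hf i j
  rw [LinearMap.mem_ker, Matrix.mulVecLin_apply] at hf
  refine (hcon (fun z => ∀ hz : z ∈ A, f i = f ⟨z, hz⟩) ?_ i i.2 j j.2 (fun _ => rfl) j.2)
  intro a b hab h1 hb
  have ha := hsup a b hab
  rw [h1 ha]
  have he : ({a, b} : Finset X) ∈ Fa H A 2 := (mem_Fa_two hsup).2 ⟨a, b, hab, rfl⟩
  have h2 := B1_mul (H := H) f ⟨{a, b}, he⟩ ⟨a, ha⟩ ⟨b, hb⟩ (fun h => hab.ne (congrArg Subtype.val h))
    rfl
  rw [hf] at h2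
  exact CharTwo.add_eq_zero.1 h2.symm

theorem ker_B2T (h : Surf H) (hsup : ∀ a b, H.Adj a b → a ∈ A)
    (hcon : ∀ P : X → Prop, (∀ a b, H.Adj a b → P a → P b) → ∀ a ∈ A, ∀ b ∈ A, P a → P b) :
    Module.finrank (ZMod 2) (LinearMap.ker (B2 H A).transpose.mulVecLin) ≤ 1 := by
  classical
  refine finrank_le_one _ ?_
  intro s hs
  rw [LinearMap.mem_ker, Matrix.mulVecLin_apply] at hs
  set s' : X → X → X → ZMod 2 := fun a b c =>
    if h : ({a, b, c} : Finset X) ∈ Fa H A 3 then s ⟨_, h⟩ else 0 with hs'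
  have hval : ∀ (a b c : X) (t : Fa H A 3), (t : Finset X) = {a, b, c} → s' a b c = s t := by
    intro a b c t ht
    have h1 : ({a, b, c} : Finset X) ∈ Fa H A 3 := ht ▸ t.2
    rw [hs']
    dsimp only
    rw [dif_pos h1]
    congr 1
    exact Subtype.ext ht.symm
  have hsw1 : ∀ a b c, s' a b c = s' b a c := by
    intro a b c
    rw [hs']
    dsimp only
    have h1 : ({a, b, c} : Finset X) = {b, a, c} := Finset.insert_comm a b _
    by_cases h2 : ({a, b, c} : Finset X) ∈ Fa H A 3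
    · have h3 : ({b, a, c} : Finset X) ∈ Fa H A 3 := h1 ▸ h2
      rw [dif_pos h2, dif_pos h3]
      congr 1
      exact Subtype.ext h1
    · have h3 : ({b, a, c} : Finset X) ∉ Fa H A 3 := h1 ▸ h2
      rw [dif_neg h2, dif_neg h3]
  have hsw2 : ∀ a b c, s' a b c = s' a c b := by
    intro a b c
    rw [hs']
    dsimp only
    have h1 : ({a, b, c} : Finset X) = {a, c, b} := by rw [Finset.pair_comm b c]
    by_cases h2 : ({a, b, c} : Finset X) ∈ Fa H A 3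
    · have h3 : ({a, c, b} : Finset X) ∈ Fa H A 3 := h1 ▸ h2
      rw [dif_pos h2, dif_pos h3]
      congr 1
      exact Subtype.ext h1
    · have h3 : ({a, c, b} : Finset X) ∉ Fa H A 3 := h1 ▸ h2
      rw [dif_neg h2, dif_neg h3]
  have hcross : ∀ u p r1 r2, H.Adj u p → H.Adj u r1 → H.Adj p r1 → H.Adj u r2 → H.Adj p r2 →
      s' u p r1 = s' u p r2 := by
    intro u p r1 r2 h1 h2 h3 h4 h5
    by_cases h6 : r1 = r2
    · rw [h6]
    · have he : ({u, p} : Finset X) ∈ Fa H A 2 := (mem_Fa_two hsup).2 ⟨u, p, h1, rfl⟩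
      have ht1 : ({u, p, r1} : Finset X) ∈ Fa H A 3 :=
        (mem_Fa_three hsup).2 ⟨u, p, r1, h1, h3, h2, rfl⟩
      have ht2 : ({u, p, r2} : Finset X) ∈ Fa H A 3 :=
        (mem_Fa_three hsup).2 ⟨u, p, r2, h1, h5, h4, rfl⟩
      have h7 := B2T_mul h hsup s ⟨_, he⟩ rfl h2 h3 h4 h5 h6 ⟨_, ht1⟩ ⟨_, ht2⟩ rfl rfl
      rw [hs] at h7
      rw [hval u p r1 ⟨_, ht1⟩ rfl, hval u p r2 ⟨_, ht2⟩ rfl]
      exact CharTwo.add_eq_zero.1 h7.symm
  have hconst : ∀ u, ∃ c : ZMod 2, ∀ p q, H.Adj u p → H.Adj u q → H.Adj p q → s' u p q = c :=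
    fun u => link_const h s' u (fun p q => hsw2 u p q) (hcross u)
  choose σ hσ using hconst
  have hσc : ∀ u z, H.Adj u z → σ u = σ z := by
    intro u z huz
    obtain ⟨p, q, -, -, h2⟩ := h.two u z huz
    have hp := (h2 p).2 (Or.inl rfl)
    rw [← hσ u z p huz hp.1 hp.2, ← hσ z u p huz.symm hp.2 hp.1, hsw1]
  have hfin : ∀ t : Fa H A 3, ∃ a ∈ A, s t = σ a := by
    intro t
    obtain ⟨a, b, c, h1, h2, h3, h4⟩ := (mem_Fa_three hsup).1 t.2
    exact ⟨a, hsup a b h1, by rw [← hval a b c t h4, hσ a b c h1 h3 h2]⟩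
  intro i j
  obtain ⟨a, ha, h1⟩ := hfin i
  obtain ⟨b, hb, h2⟩ := hfin j
  rw [h1, h2]
  exact hcon (fun z => σ a = σ z) (fun x y hxy h3 => h3.trans (hσc x y hxy)) a ha b hb rfl

theorem coh_of_euler (h : Surf H) (hsup : ∀ a b, H.Adj a b → a ∈ A)
    (hcon : ∀ P : X → Prop, (∀ a b, H.Adj a b → P a → P b) → ∀ a ∈ A, ∀ b ∈ A, P a → P b)
    (hχ : (Fa H A 2).card + 2 = A.card + (Fa H A 3).card)
    (f : X → X → ZMod 2) (hf : ∀ a b, f a b = f b a)
    (hf2 : ∀ a b c, H.Adj a b → H.Adj b c → H.Adj a c → f a b + f b c + f a c = 0) :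
    ∃ g : X → ZMod 2, ∀ a b, H.Adj a b → f a b = g a + g b := by
  classical
  -- the ranks
  have r1 := LinearMap.finrank_range_add_finrank_ker (B1 H A).mulVecLin
  have r2 := LinearMap.finrank_range_add_finrank_ker (B2 H A).mulVecLin
  have r3 := LinearMap.finrank_range_add_finrank_ker (B2 H A).transpose.mulVecLin
  have r4 : Module.finrank (ZMod 2) (LinearMap.range (B2 H A).transpose.mulVecLin) =
      Module.finrank (ZMod 2) (LinearMap.range (B2 H A).mulVecLin) :=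
    Matrix.rank_transpose (B2 H A)
  have k1 := ker_B1 (H := H) hsup hcon
  have k2 := ker_B2T h hsup hcon
  rw [Module.finrank_fintype_fun_eq_card, Fintype.card_coe] at r1 r2 r3
  have hle : LinearMap.range (B1 H A).mulVecLin ≤ LinearMap.ker (B2 H A).mulVecLin := by
    rintro z ⟨g, rfl⟩
    rw [LinearMap.mem_ker, Matrix.mulVecLin_apply, Matrix.mulVecLin_apply]
    funext t
    obtain ⟨a, b, c, h1, h2, h3, h4⟩ := (mem_Fa_three hsup).1 t.2
    have ha := hsup a b h1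
    have hb := hsup b c h2
    have hc := hsup c b h2.symm
    have e1 : ({a, b} : Finset X) ∈ Fa H A 2 := (mem_Fa_two hsup).2 ⟨a, b, h1, rfl⟩
    have e2 : ({b, c} : Finset X) ∈ Fa H A 2 := (mem_Fa_two hsup).2 ⟨b, c, h2, rfl⟩
    have e3 : ({a, c} : Finset X) ∈ Fa H A 2 := (mem_Fa_two hsup).2 ⟨a, c, h3, rfl⟩
    rw [B2_mul _ t h1.ne h3.ne h2.ne h4 ⟨_, e1⟩ ⟨_, e2⟩ ⟨_, e3⟩ rfl rfl rfl,
      B1_mul g ⟨_, e1⟩ ⟨a, ha⟩ ⟨b, hb⟩ (fun h => h1.ne (congrArg Subtype.val h)) rfl,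
      B1_mul g ⟨_, e2⟩ ⟨b, hb⟩ ⟨c, hc⟩ (fun h => h2.ne (congrArg Subtype.val h)) rfl,
      B1_mul g ⟨_, e3⟩ ⟨a, ha⟩ ⟨c, hc⟩ (fun h => h3.ne (congrArg Subtype.val h)) rfl]
    have h5 : g ⟨a, ha⟩ + g ⟨b, hb⟩ + (g ⟨b, hb⟩ + g ⟨c, hc⟩) + (g ⟨a, ha⟩ + g ⟨c, hc⟩) =
        (g ⟨a, ha⟩ + g ⟨a, ha⟩) + (g ⟨b, hb⟩ + g ⟨b, hb⟩) + (g ⟨c, hc⟩ + g ⟨c, hc⟩) := by ring
    rw [h5]
    simp only [CharTwo.add_self_eq_zero, add_zero, Pi.zero_apply]
  have heq : LinearMap.range (B1 H A).mulVecLin = LinearMap.ker (B2 H A).mulVecLin := by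
    refine Submodule.eq_of_le_of_finrank_le hle ?_
    omega
  -- the function on the edges
  have hex : ∀ e : Fa H A 2, ∃ z : ZMod 2, ∀ a b, (e : Finset X) = {a, b} → z = f a b := by
    intro e
    obtain ⟨a, b, h1, h2⟩ := (mem_Fa_two hsup).1 e.2
    refine ⟨f a b, fun c d h3 => ?_⟩
    rw [h2] at h3
    have hc : c ∈ ({a, b} : Finset X) := by rw [h3]; simp
    have hd : d ∈ ({a, b} : Finset X) := by rw [h3]; simp
    have hb : b ∈ ({c, d} : Finset X) := by rw [← h3]; simp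
    have ha : a ∈ ({c, d} : Finset X) := by rw [← h3]; simp
    rw [mem_insert, mem_singleton] at hc hd ha hb
    rcases hc with hc | hc
    · rcases hd with hd | hd
      · exfalso
        rcases hb with hb | hb
        · exact h1.ne (hc.symm.trans hb.symm)
        · exact h1.ne (hd.symm.trans hb.symm)
      · rw [hc, hd]
    · rcases hd with hd | hd
      · rw [hc, hd]
        exact hf a b
      · exfalso
        rcases ha with ha | ha
        · exact h1.ne (ha.trans hc)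
        · exact h1.ne (ha.trans hd)
  choose F hF using hex
  have hFker : F ∈ LinearMap.ker (B2 H A).mulVecLin := by
    rw [LinearMap.mem_ker, Matrix.mulVecLin_apply]
    funext t
    obtain ⟨a, b, c, h1, h2, h3, h4⟩ := (mem_Fa_three hsup).1 t.2
    have e1 : ({a, b} : Finset X) ∈ Fa H A 2 := (mem_Fa_two hsup).2 ⟨a, b, h1, rfl⟩
    have e2 : ({b, c} : Finset X) ∈ Fa H A 2 := (mem_Fa_two hsup).2 ⟨b, c, h2, rfl⟩
    have e3 : ({a, c} : Finset X) ∈ Fa H A 2 := (mem_Fa_two hsup).2 ⟨a, c, h3, rfl⟩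
    rw [B2_mul _ t h1.ne h3.ne h2.ne h4 ⟨_, e1⟩ ⟨_, e2⟩ ⟨_, e3⟩ rfl rfl rfl,
      hF ⟨_, e1⟩ a b rfl, hF ⟨_, e2⟩ b c rfl, hF ⟨_, e3⟩ a c rfl]
    exact hf2 a b c h1 h2 h3
  rw [← heq] at hFker
  obtain ⟨g, hg⟩ := hFker
  refine ⟨fun x => if h : x ∈ A then g ⟨x, h⟩ else 0, fun a b hab => ?_⟩
  have ha := hsup a b hab
  have hb := hsup b a hab.symm
  dsimp only
  rw [dif_pos ha, dif_pos hb]
  have e1 : ({a, b} : Finset X) ∈ Fa H A 2 := (mem_Fa_two hsup).2 ⟨a, b, hab, rfl⟩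
  rw [← hF ⟨_, e1⟩ a b rfl, ← hg, Matrix.mulVecLin_apply]
  exact B1_mul g ⟨_, e1⟩ ⟨a, ha⟩ ⟨b, hb⟩ (fun h => hab.ne (congrArg Subtype.val h)) rfl

/-- A closed connected flag surface with Euler characteristic two satisfies `Sph`. -/
theorem sph_of_euler (h : Surf H) (hsup : ∀ a b, H.Adj a b → a ∈ A)
    (hcon : ∀ P : X → Prop, (∀ a b, H.Adj a b → P a → P b) → ∀ a ∈ A, ∀ b ∈ A, P a → P b)
    (hχ : (Fa H A 2).card + 2 = A.card + (Fa H A 3).card) : Sph H A := by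
  refine ⟨hsup, h.two, h.lk, hcon, fun f hf hf2 => coh_of_euler h hsup hcon hχ f hf hf2, ?_⟩
  have h1 := sum_deg (H := H) hsup
  have h2 := sum_tri h hsup
  omega

end Pool.Agent.Helper84.FS
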