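import Pool.Agent.Helper84.FS.Contract
import Pool.Agent.Helper51.CD.Defs2
import Pool.Agent.Helper51.CD.Cube

/-!
# Flag 2-spheres are tame
-/

open Finset

namespace Pool.Agent.Helper84.FS

open Pool.Agent.Helper51.CD Pool.Agent.Helper51.CD.Cube

variable {X : Type}

/-- The cliques of `G` in `A`. -/
def cl (G : SimpleGraph X) (A : Finset X) : Set (Finset X) :=
  {τ | τ ⊆ A ∧ G.IsClique (τ : Set X)}

theorem cl_eq (G : SimpleGraph X) (A : Finset X) :
    (↑(cliquesIn G A) : Set (Finset X)) = cl G A := by
  ext τ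
  rw [Finset.mem_coe, mem_cliquesIn]
  rfl

theorem isCx_cl (G : SimpleGraph X) (A : Finset X) : IsCx G (cl G A) := by
  refine ⟨fun τ hτ => hτ.2, fun τ hτ ρ hρ => ⟨hρ.trans hτ.1, ?_⟩⟩
  exact hτ.2.subset (by exact_mod_cast hρ)

theorem cl_pair [DecidableEq X] (G : SimpleGraph X) {x y : X}
    (h : ¬ G.Adj x y) : cl G {x, y} = {∅, {x}, {y}} := by
  ext τ
  constructor
  · rintro ⟨h1, h2⟩
    simp only [Set.mem_insert_iff, Set.mem_singleton_iff]
    rw [Finset.subset_insert_iff, Finset.subset_singleton_iff] at h1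
    by_cases hx : x ∈ τ
    · by_cases hy : y ∈ τ
      · by_cases hxy : x = y
        · right
          left
          rcases h1 with h1 | h1
          · rw [← Finset.insert_erase hx, h1]
            rfl
          · exfalso
            have h3 : y ∈ τ.erase x := by
              rw [h1]
              exact mem_singleton_self y
            exact (mem_erase.1 h3).1 hxy.symm
        · exact absurd (h2 (by exact_mod_cast hx) (by exact_mod_cast hy) hxy) h
      · right
        left
        rcases h1 with h1 | h1
        · rw [← Finset.insert_erase hx, h1]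
          rfl
        · exfalso
          have h3 : y ∈ τ.erase x := by
            rw [h1]
            exact mem_singleton_self y
          exact hy (mem_erase.1 h3).2
    · rw [Finset.erase_eq_of_notMem hx] at h1
      rcases h1 with h1 | h1
      · exact Or.inl h1
      · exact Or.inr (Or.inr h1)
  · intro h1
    simp only [Set.mem_insert_iff, Set.mem_singleton_iff] at h1
    rcases h1 with h1 | h1 | h1
    · rw [h1]
      exact ⟨Finset.empty_subset _, by simp⟩
    · rw [h1]
      exact ⟨by simp, by simp⟩
    · rw [h1]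
      exact ⟨by simp, by simp⟩

theorem cone_cl [DecidableEq X] (G : SimpleGraph X) {B : Finset X} {v : X} (hv : v ∉ B)
    (hv' : ∀ z ∈ B, G.Adj v z) : {τ : Finset X | τ.erase v ∈ cl G B} = cl G (insert v B) := by
  ext τ
  constructor
  · rintro ⟨h1, h2⟩
    refine ⟨Finset.subset_insert_iff.2 h1, ?_⟩
    intro a ha b hb hab
    have ha' : a ∈ τ := by exact_mod_cast ha
    have hb' : b ∈ τ := by exact_mod_cast hb
    by_cases hav : a = v
    · rw [hav]
      have hbv : b ≠ v := fun h3 => hab (hav.trans h3.symm)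
      exact hv' b (h1 (mem_erase.2 ⟨hbv, hb'⟩))
    · by_cases hbv : b = v
      · rw [hbv]
        exact (hv' a (h1 (mem_erase.2 ⟨hav, ha'⟩))).symm
      · exact h2 (by exact_mod_cast mem_erase.2 ⟨hav, ha'⟩)
          (by exact_mod_cast mem_erase.2 ⟨hbv, hb'⟩) hab
  · rintro ⟨h1, h2⟩
    refine ⟨Finset.subset_insert_iff.1 h1, ?_⟩
    exact h2.subset (by exact_mod_cast Finset.erase_subset v τ)

theorem tame_susp [DecidableEq X] (G : SimpleGraph X) {B : Finset X} (h : TameK G (cl G B))
    {v x : X} (hvx : v ≠ x) (hn : ¬ G.Adj v x) (hv : v ∉ B) (hx : x ∉ B)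
    (hv' : ∀ z ∈ B, G.Adj v z) (hx' : ∀ z ∈ B, G.Adj x z) :
    TameK G (cl G (insert v (insert x B))) := by
  have h1 : TameK G (cl G (insert v B)) := by
    rw [← cone_cl G hv hv']
    refine TameK.cone G (cl G B) v (fun τ hτ => ⟨fun h2 => hv (hτ.1 h2), fun z hz => ?_⟩) h
    exact hv' z (hτ.1 hz)
  have h2 : TameK G (cl G (insert x B)) := by
    rw [← cone_cl G hx hx']
    refine TameK.cone G (cl G B) x (fun τ hτ => ⟨fun h2 => hx (hτ.1 h2), fun z hz => ?_⟩) h
    exact hx' z (hτ.1 hz)
  have h3 : cl G (insert v B) ∩ cl G (insert x B) = cl G B := by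
    ext τ
    constructor
    · rintro ⟨⟨h4, h5⟩, ⟨h6, -⟩⟩
      refine ⟨fun z hz => ?_, h5⟩
      rcases mem_insert.1 (h4 hz) with h7 | h7
      · rcases mem_insert.1 (h6 hz) with h8 | h8
        · exact absurd (h7.symm.trans h8) hvx
        · exact h8
      · exact h7
    · rintro ⟨h4, h5⟩
      exact ⟨⟨h4.trans (Finset.subset_insert v B), h5⟩,
        ⟨h4.trans (Finset.subset_insert x B), h5⟩⟩
  have h4 : cl G (insert v B) ∪ cl G (insert x B) = cl G (insert v (insert x B)) := by
    ext τ
    constructor
    · rintro (⟨h5, h6⟩ | ⟨h5, h6⟩)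
      · exact ⟨h5.trans (Finset.insert_subset_insert v (Finset.subset_insert x B)), h6⟩
      · exact ⟨h5.trans (Finset.subset_insert v _), h6⟩
    · rintro ⟨h5, h6⟩
      by_cases h7 : v ∈ τ
      · left
        refine ⟨fun z hz => ?_, h6⟩
        rcases mem_insert.1 (h5 hz) with h8 | h8
        · exact mem_insert.2 (Or.inl h8)
        · rcases mem_insert.1 h8 with h9 | h9
          · exfalso
            rw [h9] at hz
            exact hn (h6 (by exact_mod_cast h7) (by exact_mod_cast hz) hvx)
          · exact mem_insert.2 (Or.inr h9)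
      · right
        refine ⟨fun z hz => ?_, h6⟩
        rcases mem_insert.1 (h5 hz) with h8 | h8
        · exact absurd (h8 ▸ hz) h7
        · exact h8
  rw [← h4]
  refine TameK.union G _ _ h1 h2 ?_
  rw [h3]
  exact h

/-- The graph of the edges inside `A`. -/
def res (G : SimpleGraph X) (A : Finset X) : SimpleGraph X where
  Adj a b := G.Adj a b ∧ a ∈ A ∧ b ∈ A
  symm := ⟨fun _ _ h => ⟨h.1.symm, h.2.2, h.2.1⟩⟩
  loopless := ⟨fun _ h => h.1.ne rfl⟩

theorem tame_of_oct [DecidableEq X] (G : SimpleGraph X) {A : Finset X} {u x p r q s : X}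
    (h : Oct (res G A) A u x p r q s) : TameK G (cl G A) := by
  have hu := (h.mem u).2 (Or.inl rfl)
  have hx := (h.mem x).2 (Or.inr (Or.inl rfl))
  have hp := (h.mem p).2 (Or.inr (Or.inr (Or.inl rfl)))
  have hr := (h.mem r).2 (Or.inr (Or.inr (Or.inr (Or.inl rfl))))
  have hq := (h.mem q).2 (Or.inr (Or.inr (Or.inr (Or.inr (Or.inl rfl)))))
  have hs := (h.mem s).2 (Or.inr (Or.inr (Or.inr (Or.inr (Or.inr rfl)))))
  have e1 : TameK G (cl G {q, s}) := by
    have hn : ¬ G.Adj q s := fun g => h.nqs ⟨g, hq, hs⟩
    rw [cl_pair G hn]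
    exact TameK.pair G q s h.qs hn
  have e2 : TameK G (cl G (insert p (insert r {q, s}))) := by
    refine tame_susp G e1 h.pr (fun g => h.npr ⟨g, hp, hr⟩) ?_ ?_ ?_ ?_
    · rw [mem_insert, mem_singleton, not_or]
      exact ⟨h.pq.ne, h.sp.ne.symm⟩
    · rw [mem_insert, mem_singleton, not_or]
      exact ⟨h.qr.ne.symm, h.rs.ne⟩
    · intro z hz
      rw [mem_insert, mem_singleton] at hz
      rcases hz with hz | hz
      · exact hz ▸ h.pq.1
      · exact hz ▸ h.sp.1.symm
    · intro z hz
      rw [mem_insert, mem_singleton] at hz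
      rcases hz with hz | hz
      · exact hz ▸ h.qr.1.symm
      · exact hz ▸ h.rs.1
  have e3 : TameK G (cl G (insert u (insert x (insert p (insert r {q, s}))))) := by
    refine tame_susp G e2 h.ux (fun g => h.nux ⟨g, hu, hx⟩) ?_ ?_ ?_ ?_
    · simp only [mem_insert, mem_singleton, not_or]
      exact ⟨h.up.ne, h.ur.ne, h.uq.ne, h.us.ne⟩
    · simp only [mem_insert, mem_singleton, not_or]
      exact ⟨h.xp.ne, h.xr.ne, h.xq.ne, h.xs.ne⟩
    · intro z hz
      simp only [mem_insert, mem_singleton] at hz
      rcases hz with hz | hz | hz | hz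
      · exact hz ▸ h.up.1
      · exact hz ▸ h.ur.1
      · exact hz ▸ h.uq.1
      · exact hz ▸ h.us.1
    · intro z hz
      simp only [mem_insert, mem_singleton] at hz
      rcases hz with hz | hz | hz | hz
      · exact hz ▸ h.xp.1
      · exact hz ▸ h.xr.1
      · exact hz ▸ h.xq.1
      · exact hz ▸ h.xs.1
  have e4 : A = insert u (insert x (insert p (insert r {q, s}))) := by
    ext z
    rw [h.mem z]
    simp only [mem_insert, mem_singleton]
  rw [e4]
  exact e3

theorem res_contr [DecidableEq X] (G : SimpleGraph X) {A : Finset X} {v w : X}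
    (hv : v ∈ A) (hw : w ∈ A) (hvw : v ≠ w) :
    res (contr G v w) (A.erase w) = ctr (res G A) v w := by
  ext a b
  constructor
  · rintro ⟨⟨h1, h2⟩, h3, h4⟩
    rw [mem_erase] at h3 h4
    refine ⟨h1, h3.1, h4.1, ?_⟩
    rcases h2 with h2 | h2 | h2
    · exact Or.inl ⟨h2, h3.2, h4.2⟩
    · exact Or.inr (Or.inl ⟨h2.1, h2.2, hw, h4.2⟩)
    · exact Or.inr (Or.inr ⟨h2.1, h2.2, hw, h3.2⟩)
  · rintro ⟨h1, h2, h3, h4⟩
    rcases h4 with h4 | h4 | h4
    · exact ⟨⟨h1, Or.inl h4.1⟩, mem_erase.2 ⟨h2, h4.2.1⟩, mem_erase.2 ⟨h3, h4.2.2⟩⟩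
    · refine ⟨⟨h1, Or.inr (Or.inl ⟨h4.1, h4.2.1⟩)⟩, ?_, mem_erase.2 ⟨h3, h4.2.2.2⟩⟩
      rw [h4.1]
      exact mem_erase.2 ⟨hvw, hv⟩
    · refine ⟨⟨h1, Or.inr (Or.inr ⟨h4.1, h4.2.1⟩)⟩, mem_erase.2 ⟨h2, h4.2.2.2⟩, ?_⟩
      rw [h4.1]
      exact mem_erase.2 ⟨hvw, hv⟩

theorem ctrK_cl [DecidableEq X] (G : SimpleGraph X) {A : Finset X} {v w : X}
    (hv : v ∈ A) (hw : w ∈ A) (hvw : G.Adj v w) (hF : NoCross (res G A) v w) :
    ctrK (cl G A) v w = cl (contr G v w) (A.erase w) := by
  ext τ
  constructor
  · rintro ⟨h1, h2 | ⟨h2, h3⟩⟩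
    · refine ⟨fun z hz => mem_erase.2 ⟨fun h4 => h1 (h4 ▸ hz), h2.1 hz⟩, ?_⟩
      intro a ha b hb hab
      exact ⟨hab, Or.inl (h2.2 ha hb hab)⟩
    · refine ⟨fun z hz => ?_, ?_⟩
      · refine mem_erase.2 ⟨fun h4 => h1 (h4 ▸ hz), ?_⟩
        by_cases h4 : z = v
        · rw [h4]
          exact hv
        · exact h3.1 (mem_insert.2 (Or.inr (mem_erase.2 ⟨h4, hz⟩)))
      · have hmem : ∀ a ∈ τ, a ≠ v → a ∈ insert w (τ.erase v) := fun a ha h4 =>
          mem_insert.2 (Or.inr (mem_erase.2 ⟨h4, ha⟩))
        have hw' : w ∈ insert w (τ.erase v) := mem_insert_self w _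
        intro a ha b hb hab
        have ha' : a ∈ τ := by exact_mod_cast ha
        have hb' : b ∈ τ := by exact_mod_cast hb
        refine ⟨hab, ?_⟩
        by_cases h4 : a = v
        · have h5 : b ≠ v := fun h5 => hab (h4.trans h5.symm)
          right
          left
          refine ⟨h4, h3.2 (by exact_mod_cast hw') (by exact_mod_cast hmem b hb' h5) ?_⟩
          exact fun h6 => h1 (h6 ▸ hb')
        · by_cases h5 : b = v
          · right
            right
            refine ⟨h5, h3.2 (by exact_mod_cast hw') (by exact_mod_cast hmem a ha' h4) ?_⟩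
            exact fun h6 => h1 (h6 ▸ ha')
          · left
            exact h3.2 (by exact_mod_cast hmem a ha' h4) (by exact_mod_cast hmem b hb' h5) hab
  · rintro ⟨h1, h2⟩
    have hwτ : w ∉ τ := fun h3 => (mem_erase.1 (h1 h3)).1 rfl
    have hA : ∀ z ∈ τ, z ∈ A := fun z hz => (mem_erase.1 (h1 hz)).2
    have hcl : ∀ a ∈ τ, ∀ b ∈ τ, a ≠ v → b ≠ v → a ≠ b → G.Adj a b := by
      intro a ha b hb hav hbv hab
      obtain ⟨-, h3 | h3 | h3⟩ := h2 (by exact_mod_cast ha) (by exact_mod_cast hb) hab
      · exact h3
      · exact absurd h3.1 hav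
      · exact absurd h3.1 hbv
    refine ⟨hwτ, ?_⟩
    by_cases hvτ : v ∈ τ
    · have hor : ∀ a ∈ τ, a ≠ v → G.Adj v a ∨ G.Adj w a := by
        intro a ha hav
        obtain ⟨-, h3 | h3 | h3⟩ := h2 (by exact_mod_cast hvτ) (by exact_mod_cast ha)
          (fun g => hav g.symm)
        · exact Or.inl h3
        · exact Or.inr h3.2
        · exact absurd h3.1 hav
      by_cases h3 : ∀ a ∈ τ, a ≠ v → G.Adj v a
      · left
        refine ⟨hA, ?_⟩
        intro a ha b hb hab
        have ha' : a ∈ τ := by exact_mod_cast ha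
        have hb' : b ∈ τ := by exact_mod_cast hb
        by_cases hav : a = v
        · rw [hav]
          exact h3 b hb' (fun g => hab (hav.trans g.symm))
        · by_cases hbv : b = v
          · rw [hbv]
            exact (h3 a ha' hav).symm
          · exact hcl a ha' b hb' hav hbv hab
      · right
        refine ⟨hvτ, ?_⟩
        push Not at h3
        obtain ⟨y, hy, hyv, hvy⟩ := h3
        have hwy : G.Adj w y := (hor y hy hyv).resolve_left hvy
        have h4 : ∀ a ∈ τ, a ≠ v → G.Adj w a := by
          intro a ha hav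
          by_contra h5
          have h6 : G.Adj v a := (hor a ha hav).resolve_right h5
          have hay : a ≠ y := by
            intro g
            rw [g] at h6
            exact hvy h6
          refine hF a y ⟨h6, hv, hA a ha⟩ (fun g => h5 g.1) (fun g => hwτ (g ▸ ha))
            ⟨hwy, hw, hA y hy⟩ (fun g => hvy g.1) hyv
            ⟨hcl a ha y hy hav hyv hay, hA a ha, hA y hy⟩
        refine ⟨fun z hz => ?_, ?_⟩
        · rcases mem_insert.1 hz with h5 | h5
          · rw [h5]
            exact hw
          · exact hA z (mem_erase.1 h5).2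
        · intro a ha b hb hab
          have ha' : a ∈ insert w (τ.erase v) := by exact_mod_cast ha
          have hb' : b ∈ insert w (τ.erase v) := by exact_mod_cast hb
          rcases mem_insert.1 ha' with h5 | h5
          · rcases mem_insert.1 hb' with h6 | h6
            · exact absurd (h5.trans h6.symm) hab
            · rw [h5]
              exact h4 b (mem_erase.1 h6).2 (mem_erase.1 h6).1
          · rcases mem_insert.1 hb' with h6 | h6
            · rw [h6]
              exact (h4 a (mem_erase.1 h5).2 (mem_erase.1 h5).1).symm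
            · exact hcl a (mem_erase.1 h5).2 b (mem_erase.1 h6).2 (mem_erase.1 h5).1
                (mem_erase.1 h6).1 hab
    · left
      refine ⟨hA, ?_⟩
      intro a ha b hb hab
      have ha' : a ∈ τ := by exact_mod_cast ha
      have hb' : b ∈ τ := by exact_mod_cast hb
      exact hcl a ha' b hb' (fun g => hvτ (g ▸ ha')) (fun g => hvτ (g ▸ hb')) hab

theorem lkK_cl [DecidableEq X] (G : SimpleGraph X) {A : Finset X} {v w p q : X}
    (hv : v ∈ A) (hw : w ∈ A) (hvw : G.Adj v w)
    (h : ∀ x, ((res G A).Adj v x ∧ (res G A).Adj w x) ↔ (x = p ∨ x = q)) :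
    lkK (cl G A) v w = cl G {p, q} := by
  have hp := (h p).2 (Or.inl rfl)
  have hq := (h q).2 (Or.inr rfl)
  ext τ
  constructor
  · rintro ⟨h1, h2, h3, h4⟩
    have hvm : v ∈ insert v (insert w τ) := mem_insert_self v _
    have hwm : w ∈ insert v (insert w τ) := mem_insert_of_mem (mem_insert_self w _)
    have hm : ∀ z ∈ τ, z ∈ insert v (insert w τ) := fun z hz =>
      mem_insert_of_mem (mem_insert_of_mem hz)
    refine ⟨fun z hz => ?_, ?_⟩
    · rw [mem_insert, mem_singleton, ← h z]
      have hzA : z ∈ A := h3 (hm z hz)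
      exact ⟨⟨h4 (by exact_mod_cast hvm) (by exact_mod_cast hm z hz) (fun g => h1 (g ▸ hz)),
        hv, hzA⟩, ⟨h4 (by exact_mod_cast hwm) (by exact_mod_cast hm z hz) (fun g => h2 (g ▸ hz)),
        hw, hzA⟩⟩
    · intro a ha b hb hab
      exact h4 (by exact_mod_cast hm a (by exact_mod_cast ha))
        (by exact_mod_cast hm b (by exact_mod_cast hb)) hab
  · rintro ⟨h1, h2⟩
    have h3 : ∀ z ∈ τ, (res G A).Adj v z ∧ (res G A).Adj w z := by
      intro z hz
      rw [h z]
      have := h1 hz
      rw [mem_insert, mem_singleton] at this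
      exact this
    have hvτ : v ∉ τ := fun g => (h3 v g).1.ne rfl
    have hwτ : w ∉ τ := fun g => (h3 w g).2.ne rfl
    refine ⟨hvτ, hwτ, fun z hz => ?_, ?_⟩
    · rcases mem_insert.1 hz with h4 | h4
      · rw [h4]
        exact hv
      · rcases mem_insert.1 h4 with h5 | h5
        · rw [h5]
          exact hw
        · exact (h3 z h5).1.2.2
    · intro a ha b hb hab
      have ha' : a ∈ insert v (insert w τ) := by exact_mod_cast ha
      have hb' : b ∈ insert v (insert w τ) := by exact_mod_cast hb
      simp only [mem_insert] at ha' hb'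
      rcases ha' with h4 | h4 | h4 <;> rcases hb' with h5 | h5 | h5
      · exact absurd (h4.trans h5.symm) hab
      · rw [h4, h5]
        exact hvw
      · rw [h4]
        exact (h3 b h5).1.1
      · rw [h4, h5]
        exact hvw.symm
      · exact absurd (h4.trans h5.symm) hab
      · rw [h4]
        exact (h3 b h5).2.1
      · rw [h5]
        exact (h3 a h4).1.1.symm
      · rw [h5]
        exact (h3 a h4).2.1.symm
      · exact h2 (by exact_mod_cast h4) (by exact_mod_cast h5) hab

/-- **Flag 2-spheres are tame.** -/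
theorem tame_sph [Fintype X] [DecidableEq X] (n : ℕ) : ∀ (G : SimpleGraph X) (A : Finset X),
    A.card ≤ n → Sph (res G A) A → TameK G (cl G A) := by
  induction n with
  | zero =>
    intro G A hA h
    have h1 := h.deg
    omega
  | succ n ih =>
    intro G A hA h
    rcases exists_edge h with ⟨v, w, hvw, hB⟩ | ⟨u, x, p, r, q, s, ho⟩
    · have hv : v ∈ A := hvw.2.1
      have hw : w ∈ A := hvw.2.2
      have hne : v ≠ w := hvw.ne
      have hF := noCross_of hB
      obtain ⟨p, q, hpq, hn, h2⟩ := h.two v w hvw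
      have hp := (h2 p).2 (Or.inl rfl)
      have hq := (h2 q).2 (Or.inr rfl)
      refine TameK.contract G (cl G A) v w hne (isCx_cl G A) ?_ ?_ ?_ ?_
      · refine ⟨?_, ?_⟩
        · intro z hz
          rw [mem_insert, mem_singleton] at hz
          rcases hz with hz | hz
          · exact hz ▸ hv
          · exact hz ▸ hw
        · intro a ha b hb hab
          have ha' : a ∈ ({v, w} : Finset X) := by exact_mod_cast ha
          have hb' : b ∈ ({v, w} : Finset X) := by exact_mod_cast hb
          rw [mem_insert, mem_singleton] at ha' hb'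
          rcases ha' with h4 | h4 <;> rcases hb' with h5 | h5
          · exact absurd (h4.trans h5.symm) hab
          · rw [h4, h5]
            exact hvw.1
          · rw [h4, h5]
            exact hvw.1.symm
          · exact absurd (h4.trans h5.symm) hab
      · intro τ h3 h4 h5 h6
        refine ⟨fun z hz => ?_, ?_⟩
        · rcases mem_insert.1 hz with h7 | h7
          · rw [h7]
            exact hv
          · exact h6.1 h7
        · intro a ha b hb hab
          have ha' : a ∈ insert v (insert w τ) := by exact_mod_cast ha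
          have hb' : b ∈ insert v (insert w τ) := by exact_mod_cast hb
          have hvin : v ∈ insert v τ := mem_insert_self v τ
          have hτv : ∀ z ∈ τ, z ∈ insert v τ := fun z hz => mem_insert_of_mem hz
          rcases mem_insert.1 ha' with h7 | h7
          · rcases mem_insert.1 hb' with h8 | h8
            · exact absurd (h7.trans h8.symm) hab
            · rcases mem_insert.1 h8 with h9 | h9
              · rw [h7, h9]
                exact hvw.1
              · rw [h7]
                refine h5.2 (by exact_mod_cast hvin) (by exact_mod_cast hτv b h9) ?_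
                rw [← h7]
                exact hab
          · rcases mem_insert.1 hb' with h8 | h8
            · rcases mem_insert.1 h7 with h9 | h9
              · rw [h8, h9]
                exact hvw.1.symm
              · rw [h8]
                refine (h5.2 (by exact_mod_cast hvin) (by exact_mod_cast hτv a h9) ?_).symm
                rw [← h8]
                exact hab.symm
            · exact h6.2 (by exact_mod_cast h7) (by exact_mod_cast h8) hab
      · rw [ctrK_cl G hv hw hvw.1 hF]
        refine ih (contr G v w) (A.erase w) ?_ ?_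
        · have h3 := Finset.card_erase_add_one hw
          omega
        · rw [res_contr G hv hw hne]
          exact sph_ctr h hvw hB
      · rw [lkK_cl G hv hw hvw.1 h2]
        have hn' : ¬ G.Adj p q := fun g => hn ⟨g, hp.1.2.2, hq.1.2.2⟩
        rw [cl_pair G hn']
        exact TameK.pair G p q hpq hn'
    · exact tame_of_oct G ho

end Pool.Agent.Helper84.FS
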